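import Pool.Agent.H43.CM.F.CVStepA

/-!
# MP_7fe4b4_ag, job F-CVStep : the induction step of `CV`

Write `v = v' * sr q hq`, `d = len v'`, `len v = d + 1` (`len_mul_asc`), `cov v' v` (`cov_mul_sr`).  Apply `adj_step` with
`R = CR (SS 1 v)`, `R' = CR (SS 1 v')`, `B = MvPolynomial (Fin (d+1)) ℂ`, `B' = MvPolynomial (Fin d) ℂ`, `β = bet v (d+1)`,
`β' = bet v' d`, `π = pr`, `ρ = rho d`, `θ0 = X (Fin.last d)`, index type `ι = {w // cov w v ∧ w ≠ v'}`, `Pi w = Pid 1 v w`,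
`κ = {w // cov w v'}`, `J w = Pid 1 v' w`.
* domains, integrally closed: `good_all`; Noetherian: instance.
* `hcomp = pr_bet`, `hker = ker_rho`, `hff = bet_finFree v`, `hfin`: from `bet_finFree v'` (Module.Finite), `hθ = bet_last_ne`.
* `hP`: `ker_pr`, `Pid_height`.  `hPi, hPh`: `Pid_isPrime`, `Pid_height`.  `hPne`: if `Pid 1 v w = Pid 1 v v'` then
  `ble w v'` and `ble v' w` (`Pid_le_iff`), so `w = v'`.
* `hW`: `bd_eq` and the hypothesis.
* `h1`: let `w` with `cov w v'`.  `thin q hq` (for `w`, `v'`) gives `v'' ≠ v'`, `cov v'' v`, `ble w v''`.  `comap_pr`: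
  `(Pid 1 v' w).comap pr = Pid 1 v w`, and `Pid 1 v v'' ≤ Pid 1 v w` by `Pid_le_iff`.
* `h2`: let `w` with `cov w v'`, `v''` as in `thin`.  `¬ ble v' v''` (lengths equal, `v' ≠ v''`: `eq_of_ble_of_len`), so there are
  `i, k` with `rk v'' i k < rk v' i k`; one can take `k ≤ n`.  Let `Δ = mk (pmnr 1 v' k) ∈ R`.  `pmnr 1 v' k ∈ VI (SS 1 v'')`
  (`mnr_eq_zero`, `aeval_pmnr`), so `Δ ∈ Pid 1 v v''`.  For the other `v''' ≠ v', v''` with `cov v''' v`: `¬ ble w v'''` (uniqueness in `thin`), so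
  `¬ Pid 1 v v''' ≤ Pid 1 v w` (`Pid_le_iff`); choose `g_{v'''} ∈ Pid 1 v v''' \ Pid 1 v w`; `g` = product of all these, `g ∉ Pid 1 v w` (prime).
  `b = g * Δ` is in every `Pi i`.  `π b ∈ J w`: `π Δ = mk (pmnr 1 v' k) ∈ Pid 1 v' w` by `pmnr_mem_Pid`, since
  `rk w i k ≤ rk v'' i k < rk v' i k`.  For `h ∉ J w`: `h * π b = (h * π g) * mk (pmnr 1 v' k)` and `h * π g ∉ J w` (`comap_pr`,
  prime), so `pmnr_order_one` (for the pair `w`, `v'`) gives the claim.
* `h3`: `Q` a height one prime of `R'` different from all `Pid 1 v' w`.  For each `v'' ≠ v'` with `cov v'' v` choose `k(v'') ≤ n` and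
  `i` with `rk v'' i k < rk v' i k` as before; `b = ∏ mk (pmnr 1 v' k(v''))`; `b ∈ Pid 1 v v''` for each; `π b ∉ Q`:
  otherwise some `mk (pmnr 1 v' k) ∈ Q`, so by `exists_cov_of_pmnr_mem` `Q = Pid 1 v' w` with `cov w v'`, contradiction.
-/

open MvPolynomial

noncomputable section

namespace CMT

variable {n : ℕ}

/-- the induction step of `CV` -/
theorem CV_step (v' : Equiv.Perm (Fin n)) (q : ℕ) (hq : q + 1 < n) (ha : asc v' q hq)
    (h : CanDual (bet (v' * sr q hq) (len (v' * sr q hq))) (bd 1 (v' * sr q hq))) :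
    CanDual (bet v' (len v')) (bd 1 v') := by
  have hcov : cov v' (v' * sr q hq) := cov_mul_sr q hq ha
  have hlen : len (v' * sr q hq) = len v' + 1 := len_mul_asc v' q hq ha
  have hff : FinFree (bet (v' * sr q hq) (len v' + 1)) := by
    have := bet_finFree (v' * sr q hq)
    rwa [hlen] at this
  rw [hlen, bd_eq hcov, ← ker_pr hcov.1] at h
  have g1 := good_all 1 (v' * sr q hq) (SS_one_nonempty _)
  have g2 := good_all 1 v' (SS_one_nonempty _)
  have := g1.1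
  have := g1.2.1
  have := g2.1
  have := g2.2.1
  have hne := SS_one_nonempty (n := n)
  refine adj_step (bet (v' * sr q hq) (len v' + 1)) (bet v' (len v')) (pr (x := 1) hcov.1)
    (rho (len v')) (pr_surjective hcov.1) (rho_surjective _) (pr_bet hcov.1 _ rfl)
    (X (Fin.last (len v'))) (ker_rho _) hff ?_ (bet_last_ne _ hlen) ?_
    (fun i : {w : Equiv.Perm (Fin n) // cov w (v' * sr q hq) ∧ w ≠ v'} =>
      Pid 1 (v' * sr q hq) i.1) (fun i => Pid_isPrime i.2.1.1 (hne _))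
    (fun i => Pid_height i.2.1 (hne _)) ?_ h
    (fun j : {w : Equiv.Perm (Fin n) // cov w v'} => Pid 1 v' j.1)
    (fun j => Pid_isPrime j.2.1 (hne _)) (fun j => Pid_height j.2 (hne _)) ?_ ?_ ?_
  · exact (bet_finFree v').1
  · rw [ker_pr]
    exact Pid_height hcov (hne _)
  · intro i hi
    rw [ker_pr] at hi
    apply i.2.2
    exact ble_antisymm ((Pid_le_iff hcov.1 i.2.1.1 (hne _)).1 hi.ge)
      ((Pid_le_iff i.2.1.1 hcov.1 (hne _)).1 hi.le)
  · intro j
    obtain ⟨v'', h1, h2, h3, -⟩ := thin q hq j.2 ha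
    refine ⟨⟨v'', h2, h1⟩, ?_⟩
    rw [comap_pr hcov.1 j.2.1]
    exact (Pid_le_iff h2.1 (ble_trans j.2.1 hcov.1) (hne _)).2 h3
  · intro j
    exact CV_h2 q hq ha j.2 hcov
  · intro Q hQ hQh hQj
    exact CV_h3 q hq ha hcov Q hQ hQh hQj

end CMT
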