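import Pool.Agent.H43.CM.F.CVBase
import Pool.Agent.H43.CM.F.CVStep

/-!
# MP_7fe4b4_ag : (F6), the boundary ideal of `X_v` at `e_id` is dual to the coordinate ring, for all `v`
-/

open MvPolynomial

noncomputable section

namespace CMT

variable {n : ℕ}

/-- `(F6)` -/
theorem CV (v : Equiv.Perm (Fin n)) : CanDual (bet v (len v)) (bd 1 v) := by
  suffices H : ∀ m (v : Equiv.Perm (Fin n)),
      len (Fin.revPerm : Equiv.Perm (Fin n)) - len v = m →
        CanDual (bet v (len v)) (bd 1 v) from H _ v rfl
  intro m
  induction m with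
  | zero =>
    intro v hm
    have : v = Fin.revPerm :=
      eq_of_ble_of_len (ble_rev v) (le_antisymm (len_le_of_ble (ble_rev v)) (by omega))
    subst this
    exact CV_base
  | succ m ih =>
    intro v hm
    have hx : v ≠ Fin.revPerm := by
      rintro rfl
      omega
    obtain ⟨q, hq, ha⟩ := exists_asc v hx
    exact CV_step v q hq ha (ih _ (by rw [len_mul_asc _ _ _ ha]; omega))

end CMT
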