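import Pool.Agent.H43.CM.G.Iface
import Pool.Agent.H43.CM.D.Ind

/-!
# MP_7fe4b4_ag, job F-GCM : the hypotheses of (G3) for the rings `R_v`

* `wpos`: `wt e = e.1.1 - e.1.2 ≥ 1` (natural subtraction, `e.2 : e.1.2 < e.1.1`).
* `hom`: `VI_SS_homogeneous` with `c = fun p => p.val` (monotone), `wt = fun e => c e.1.1 - c e.1.2`.
* `dom`: `good_all 1 v` gives `IsDomain (CR (SS 1 v))`, so `VI (SS 1 v)` is prime.
* `le`: `VI_SS_le_orig`.
* `thom`: `theta_homogeneous` with weight `DD n ≥ 1` (a product of numbers `max _ 1`).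
* `prim`: `pow_le_theta`.
* `dep`: `(good_all 1 v _).2.2` (definition of `orig`).
`SS 1 v` is nonempty by `SS_nonempty_of_ble (ble_one v)`.
-/

open MvPolynomial

noncomputable section

namespace CMT

variable {n : ℕ}

theorem SS_one_nonempty (v : Equiv.Perm (Fin n)) : (SS 1 v).Nonempty :=
  SS_nonempty_of_ble (ble_one v)

/-- `(G3)` for Schubert varieties -/
theorem gradedCM_SS (v : Equiv.Perm (Fin n)) :
    GradedCM wt (VI (SS 1 v)) (len v) (fun i => theta n (i.val + 1)) := by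
  have hg := good_all 1 v (SS_one_nonempty v)
  refine ⟨?_, ?_, ?_, ?_, ?_, ?_, ?_⟩
  · intro e
    have h : (e.1.2 : ℕ) < (e.1.1 : ℕ) := e.2
    show 1 ≤ (e.1.1 : ℕ) - (e.1.2 : ℕ)
    omega
  · intro f hf m
    exact VI_SS_homogeneous (x := 1) (v := v) (fun p : Fin n => p.val) (fun _ _ h => h) f hf m
  · exact (Ideal.Quotient.isDomain_iff_prime _).mp hg.1
  · exact VI_SS_le_orig (SS_one_nonempty v)
  · intro i
    refine ⟨DD n, ?_, theta_homogeneous (i.val + 1) (by omega)⟩
    exact Nat.succ_le_of_lt (Finset.prod_pos (fun w _ => lt_of_lt_of_le one_pos (le_max_right _ _)))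
  · exact pow_le_theta v
  · exact hg.2.2

theorem bet_finFree (v : Equiv.Perm (Fin n)) : FinFree (bet v (len v)) :=
  gradedCM_finFree _ _ _ _ (gradedCM_SS v)

end CMT
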