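import Pool.Agent.H43.CM.E.Iface
import Pool.Agent.H43.CM.F.GCM

/-!
# MP_7fe4b4_ag, job F-Quot : the surjections `R_v → R_{v'}` and `B_{d+1} → B_d`

`pr h : CR (SS x v) →+* CR (SS x w)` is `Ideal.Quotient.factor` (or `Ideal.quotientMap`) for
`VI (SS x v) ≤ VI (SS x w)` (`VI_le_of_ble`).

* `pr_mk`, `pr_surjective`: standard.
* `ker_pr`: the kernel is `Pid x v w` (`Ideal.Quotient.factor_ker` or: `pr (mk f) = 0 ↔ f ∈ VI (SS x w) ↔ mk f ∈ Pid`
  by `mk_mem_Pid`).
* `comap_pr`: `(Pid x w w').comap pr = Pid x v w'`: `mk_mem_Pid` twice.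
* `rho d : MvPolynomial (Fin (d+1)) ℂ → MvPolynomial (Fin d) ℂ` sends `X_i ↦ X_i` for `i < d` and the last variable to `0`.
* `ker_rho`: the kernel is `span {X (Fin.last d)}`.  Proof: `⊇` clear. `⊆`: let `ι : MvPolynomial (Fin d) ℂ → MvPolynomial (Fin (d+1)) ℂ` be
  `rename Fin.castSucc`; for every `f`, `f - ι (rho f) ∈ span {X (Fin.last d)}` (induction on `f`, or: both algebra maps
  `mk` and `mk ∘ ι ∘ rho` to the quotient by `span {X (last)}` agree on variables, `MvPolynomial.algHom_ext`); so if `rho f = 0` then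
  `f ∈ span {X last}`.
* `pr_bet`: `pr (bet v (d+1) b) = bet w d (rho b)` if `len w = d`: both sides are algebra maps in `b`; check on variables:
  `pr (mk θ_{i+1}) = mk θ_{i+1}`; for `i = last`: `θ_{d+1} ∈ VI (SS 1 w)` because `len w = d < d+1` (`theta_mem`).
* `bet_last_ne`: `bet v (d+1) (X last) = mk θ_{d+1} ≠ 0` if `len v = d+1`: take `z ∈ SS 1 v`, `theta_ne` (`v ≠ 1` since `len 1 = 0`).
* `bd_eq`: `bd 1 v = ker ⊓ ⨅ i : {w // cov w v ∧ w ≠ v'}, Pid 1 v i` if `cov v' v`: split the infimum.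
-/

open MvPolynomial

noncomputable section

namespace CMT

variable {n : ℕ}

/-- the surjection `R_{x,v} → R_{x,w}` for `w ≤ v` -/
def pr {x v w : Equiv.Perm (Fin n)} (h : ble w v) : CR (SS x v) →+* CR (SS x w) :=
  Ideal.Quotient.factor (VI_le_of_ble h)

theorem pr_mk {x v w : Equiv.Perm (Fin n)} (h : ble w v) (f : MvPolynomial (Low n) ℂ) :
    pr (x := x) h (Ideal.Quotient.mk _ f) = Ideal.Quotient.mk _ f := by
  unfold pr
  exact Ideal.Quotient.factor_mk _ f

theorem pr_surjective {x v w : Equiv.Perm (Fin n)} (h : ble w v) :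
    Function.Surjective (pr (x := x) h) := by
  intro y
  obtain ⟨f, rfl⟩ := Ideal.Quotient.mk_surjective y
  exact ⟨Ideal.Quotient.mk _ f, pr_mk h f⟩

theorem ker_pr {x v w : Equiv.Perm (Fin n)} (h : ble w v) :
    RingHom.ker (pr (x := x) h) = Pid x v w := by
  ext y
  obtain ⟨f, rfl⟩ := Ideal.Quotient.mk_surjective y
  rw [RingHom.mem_ker, pr_mk, mk_mem_Pid h, Ideal.Quotient.eq_zero_iff_mem]

theorem comap_pr {x v w w' : Equiv.Perm (Fin n)} (h : ble w v) (h' : ble w' w) :
    (Pid x w w').comap (pr (x := x) h) = Pid x v w' := by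
  have h'' : ble w' v := fun i k => (h' i k).trans (h i k)
  ext y
  obtain ⟨f, rfl⟩ := Ideal.Quotient.mk_surjective y
  rw [Ideal.mem_comap, pr_mk, mk_mem_Pid h', mk_mem_Pid h'']

/-- `X_i ↦ X_i` for `i < d`, the last variable goes to `0` -/
def rho (d : ℕ) : MvPolynomial (Fin (d + 1)) ℂ →+* MvPolynomial (Fin d) ℂ :=
  (aeval (Fin.lastCases (0 : MvPolynomial (Fin d) ℂ) fun i => X i) :
    MvPolynomial (Fin (d + 1)) ℂ →ₐ[ℂ] MvPolynomial (Fin d) ℂ).toRingHom

private lemma quot_rho_C (d : ℕ) (a : ℂ) : rho d (C a) = C a := by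
  change aeval (Fin.lastCases (0 : MvPolynomial (Fin d) ℂ) fun i => X i) (C a) = C a
  rw [aeval_C]
  rfl

private lemma quot_rho_X (d : ℕ) (i : Fin d) : rho d (X i.castSucc) = X i := by
  change aeval (Fin.lastCases (0 : MvPolynomial (Fin d) ℂ) fun i => X i) (X i.castSucc) = X i
  rw [aeval_X, Fin.lastCases_castSucc]

private lemma quot_rho_last (d : ℕ) : rho d (X (Fin.last d)) = 0 := by
  change aeval (Fin.lastCases (0 : MvPolynomial (Fin d) ℂ) fun i => X i) (X (Fin.last d)) = 0
  rw [aeval_X, Fin.lastCases_last]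

private lemma quot_rho_rename (d : ℕ) (f : MvPolynomial (Fin d) ℂ) :
    rho d (rename Fin.castSucc f) = f := by
  induction f using MvPolynomial.induction_on with
  | C a => rw [rename_C, quot_rho_C]
  | add p q hp hq => rw [map_add, map_add, hp, hq]
  | mul_X p i hp => rw [map_mul, map_mul, hp, rename_X, quot_rho_X]

theorem rho_surjective (d : ℕ) : Function.Surjective (rho d) := by
  intro f
  exact ⟨rename Fin.castSucc f, quot_rho_rename d f⟩

private lemma quot_sub_mem (d : ℕ) (f : MvPolynomial (Fin (d + 1)) ℂ) :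
    f - rename Fin.castSucc (rho d f) ∈ Ideal.span {(X (Fin.last d) : MvPolynomial (Fin (d + 1)) ℂ)} := by
  induction f using MvPolynomial.induction_on with
  | C a =>
    rw [quot_rho_C, rename_C, sub_self]
    exact Ideal.zero_mem _
  | add p q hp hq =>
    rw [map_add, map_add]
    have := Ideal.add_mem _ hp hq
    convert this using 1
    ring
  | mul_X p i hp =>
    refine Fin.lastCases ?_ (fun j => ?_) i
    · rw [map_mul, quot_rho_last, mul_zero, map_zero, sub_zero]
      exact Ideal.mul_mem_left _ _ (Ideal.subset_span rfl)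
    · rw [map_mul, quot_rho_X, map_mul, rename_X]
      have := Ideal.mul_mem_right (X j.castSucc) _ hp
      convert this using 1
      ring

theorem ker_rho (d : ℕ) : RingHom.ker (rho d) = Ideal.span {X (Fin.last d)} := by
  apply le_antisymm
  · intro f hf
    rw [RingHom.mem_ker] at hf
    have := quot_sub_mem d f
    rw [hf, map_zero, sub_zero] at this
    exact this
  · rw [Ideal.span_le, Set.singleton_subset_iff]
    exact (RingHom.mem_ker).mpr (quot_rho_last d)

private lemma quot_bet_C (v : Equiv.Perm (Fin n)) (d : ℕ) (a : ℂ) :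
    bet v d (C a) = Ideal.Quotient.mk _ (C a) := by
  change aeval (fun i : Fin d => Ideal.Quotient.mk (VI (SS 1 v)) (theta n (i.val + 1))) (C a) = _
  rw [aeval_C]
  rfl

private lemma quot_bet_X (v : Equiv.Perm (Fin n)) (d : ℕ) (i : Fin d) :
    bet v d (X i) = Ideal.Quotient.mk _ (theta n (i.val + 1)) := by
  change aeval (fun i : Fin d => Ideal.Quotient.mk (VI (SS 1 v)) (theta n (i.val + 1))) (X i) = _
  rw [aeval_X]

theorem pr_bet {v w : Equiv.Perm (Fin n)} (h : ble w v) (d : ℕ) (hd : len w = d)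
    (b : MvPolynomial (Fin (d + 1)) ℂ) :
    pr (x := 1) h (bet v (d + 1) b) = bet w d (rho d b) := by
  induction b using MvPolynomial.induction_on with
  | C a => rw [quot_rho_C, quot_bet_C, quot_bet_C, pr_mk]
  | add p q hp hq => rw [map_add, map_add, map_add, map_add, hp, hq]
  | mul_X p i hp =>
    rw [map_mul, map_mul, map_mul, map_mul, hp]
    congr 1
    refine Fin.lastCases ?_ (fun j => ?_) i
    · rw [quot_rho_last, map_zero, quot_bet_X, pr_mk, Ideal.Quotient.eq_zero_iff_mem]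
      apply theta_mem
      rw [hd]
      simp
    · rw [quot_rho_X, quot_bet_X, quot_bet_X, pr_mk]
      rfl

theorem bet_last_ne {v : Equiv.Perm (Fin n)} (d : ℕ) (hd : len v = d + 1) :
    bet v (d + 1) (X (Fin.last d)) ≠ 0 := by
  rw [quot_bet_X]
  intro h0
  rw [Ideal.Quotient.eq_zero_iff_mem] at h0
  obtain ⟨z, hz⟩ := SS_one_nonempty v
  have hv : v ≠ 1 := by
    rintro rfl
    rw [len_one_eq] at hd
    omega
  have h1 := theta_ne hv hz
  apply h1
  rw [hd]
  have h2 := (mem_vanishingIdeal_iff).mp h0 z hz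
  simpa using h2

theorem bd_eq {v v' : Equiv.Perm (Fin n)} (h : cov v' v) :
    bd 1 v = Pid 1 v v' ⊓ ⨅ i : {w : Equiv.Perm (Fin n) // cov w v ∧ w ≠ v'}, Pid 1 v i.1 := by
  unfold bd
  apply le_antisymm
  · refine le_inf ?_ ?_
    · exact iInf_le (fun w : {w : Equiv.Perm (Fin n) // cov w v} => Pid 1 v w.1) ⟨v', h⟩
    · refine le_iInf fun i => ?_
      exact iInf_le (fun w : {w : Equiv.Perm (Fin n) // cov w v} => Pid 1 v w.1) ⟨i.1, i.2.1⟩
  · refine le_iInf fun i => ?_
    by_cases hi : i.1 = v'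
    · refine inf_le_left.trans ?_
      rw [hi]
    · refine inf_le_right.trans ?_
      exact iInf_le (fun w : {w : Equiv.Perm (Fin n) // cov w v ∧ w ≠ v'} => Pid 1 v w.1)
        ⟨i.1, i.2, hi⟩

end CMT
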