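import Pool.Agent.H43.CM.A.Iface

/-!
# MP_7fe4b4_ag, job F-Rev : the open cell `B w0 B` is dense in the chart at `e_id`

Proof.  Let `f ∈ VI (SS 1 revPerm)` and `D = ∏_{k : Fin (n+1)} pmnr 1 revPerm k`.
Claim: `f * D` vanishes at every point `z : Low n → ℂ`.  By `exists_cell 1 z`, `z ∈ SS 1 w`.  If `w = revPerm` then `f z = 0`.  If
`w ≠ revPerm`: `ble w revPerm` (`ble_rev`), and not all ranks agree (`ble_antisymm`), so some `k ≤ n`, `i` have
`rk w i k < rk revPerm i k` (for `k ≥ n` the rank `rk · i k` equals `rk · i n`), so `mnr revPerm k (1 * lowMat z) = 0`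
(`mnr_eq_zero`, `aeval_pmnr`) and `D z = 0`.
So `f * D = 0` (`MvPolynomial.funext`), and `D ≠ 0`: take a point `z1 ∈ SS 1 revPerm` (`SS_nonempty_of_ble (ble_one _)`); there all
factors are nonzero (`mnr_ne_zero`).  So `f = 0`.
-/

open MvPolynomial

noncomputable section

namespace CMT

variable {n : ℕ}

theorem Rev_dvd {R : Type*} [CommRing R] (f : ∀ k, k ≤ n → R) (k : ℕ) (hk : k ≤ n) :
    f k hk ∣ ∏ j : Fin (n + 1), f j.1 (Nat.lt_succ_iff.1 j.2) :=
  Finset.dvd_prod_of_mem (fun j : Fin (n + 1) => f j.1 (Nat.lt_succ_iff.1 j.2))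
    (Finset.mem_univ (⟨k, Nat.lt_succ_iff.2 hk⟩ : Fin (n + 1)))

/-- a permutation different from `revPerm` has a smaller rank somewhere -/
theorem Rev_exists {w : Equiv.Perm (Fin n)} (hw : w ≠ Fin.revPerm) :
    ∃ i k, k ≤ n ∧ rk w i k < rk (Fin.revPerm : Equiv.Perm (Fin n)) i k := by
  by_contra hcon
  push Not at hcon
  apply hw
  refine ble_antisymm (ble_rev w) ?_
  intro i k
  by_cases hk : k ≤ n
  · exact hcon i k hk
  · push Not at hk
    rw [rk_of_ge _ i k hk.le, rk_of_ge w i k hk.le]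
    exact hcon i n le_rfl

/-- the open cell is dense in the chart at `e_id` -/
theorem VI_one_rev : VI (SS (1 : Equiv.Perm (Fin n)) Fin.revPerm) = ⊥ := by
  rw [eq_bot_iff]
  intro f hf
  rw [mem_vanishingIdeal_iff] at hf
  rw [Ideal.mem_bot]
  obtain ⟨D, hD⟩ : ∃ D : MvPolynomial (Low n) ℂ,
      D = ∏ k : Fin (n + 1), pmnr 1 Fin.revPerm k.1 (Nat.lt_succ_iff.1 k.2) := ⟨_, rfl⟩
  have h1 : f * D = 0 := by
    refine MvPolynomial.funext fun z => ?_
    rw [map_mul, map_zero]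
    obtain ⟨w, hw⟩ := exists_cell (1 : Equiv.Perm (Fin n)) z
    by_cases hwr : w = Fin.revPerm
    · subst hwr
      have h2 := hf z hw
      rw [MvPolynomial.aeval_eq_eval] at h2
      have h3 : (eval z) f = 0 := h2
      rw [h3, zero_mul]
    · obtain ⟨i, k, hk, hlt⟩ := Rev_exists hwr
      have h2 : mnr (Fin.revPerm : Equiv.Perm (Fin n)) k hk (permMat ℂ 1 * lowMat z) = 0 :=
        mnr_eq_zero hw k hk i hlt
      rw [← aeval_pmnr, MvPolynomial.aeval_eq_eval] at h2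
      have h3 : (eval z) (pmnr (1 : Equiv.Perm (Fin n)) Fin.revPerm k hk) = 0 := h2
      have h4 : (eval z) (pmnr (1 : Equiv.Perm (Fin n)) Fin.revPerm k hk) ∣ (eval z) D := by
        rw [hD]
        exact map_dvd _ (Rev_dvd (fun k hk => pmnr (1 : Equiv.Perm (Fin n)) Fin.revPerm k hk) k hk)
      rw [h3, zero_dvd_iff] at h4
      rw [h4, mul_zero]
  have h2 : D ≠ 0 := by
    obtain ⟨z, hz⟩ := SS_nonempty_of_ble (ble_one (Fin.revPerm : Equiv.Perm (Fin n)))
    intro h0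
    have h3 : aeval z D = (0 : ℂ) := by rw [h0, map_zero]
    rw [hD, map_prod, Finset.prod_eq_zero_iff] at h3
    obtain ⟨k, -, hk⟩ := h3
    rw [aeval_pmnr] at hk
    exact mnr_ne_zero hz k.1 _ (fun _ => rfl) hk
  exact (mul_eq_zero.1 h1).resolve_right h2

end CMT
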