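import Pool.Agent.H43.CM.F.Iface
import Pool.Agent.H43.CM.F.Rev
import Pool.Agent.H43.CM.F.Quot

/-!
# MP_7fe4b4_ag, job F-CVBase : the base case of `CV`

`R := CR (SS 1 revPerm) = MvPolynomial (Low n) ℂ ⧸ VI _` with `VI _ = ⊥` (`VI_one_rev`), so `R` is isomorphic to
`MvPolynomial (Low n) ℂ`, a UFD (`MulEquiv.uniqueFactorizationMonoid`), Noetherian, a domain.
`B := MvPolynomial (Fin d) ℂ`, `d = len revPerm`, is a Noetherian UFD.  `bet revPerm d` is injective:
`FinFree` (`bet_finFree`): `R` is a free `B`-module, `R ≠ 0`, so `b • 1 = 0` gives `b = 0` (a nonzero free module over a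
domain is torsion free; `1 ≠ 0` in `R`: `Module.Free` over a domain ⟹ no zero smul divisors; or `FaithfulSMul`).
`base_dual` : `CanDual (bet revPerm d) R`.
`bd 1 revPerm = ⨅ over {w // cov w revPerm} of Pid 1 revPerm w`, all height one primes (`Pid_isPrime`, `Pid_height`,
`SS_one_nonempty`), so by `inter_principal` it is `span {g}` with `g ≠ 0`, hence `R ≃ₗ[R] bd 1 revPerm`, `r ↦ r * g`
(`LinearEquiv.ofBijective` / `Ideal.span_singleton` ... `LinearEquiv.toSpanNonzeroSingleton R R g hg`).  `CanDual.congr`.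
-/

open MvPolynomial

noncomputable section

namespace CMT

variable {n : ℕ}

theorem CVBase_ring (J : Ideal (MvPolynomial (Low n) ℂ)) (hJ : J = ⊥) :
    IsDomain (MvPolynomial (Low n) ℂ ⧸ J) ∧
      UniqueFactorizationMonoid (MvPolynomial (Low n) ℂ ⧸ J) := by
  subst hJ
  let e : MvPolynomial (Low n) ℂ ≃+* (MvPolynomial (Low n) ℂ ⧸
      (⊥ : Ideal (MvPolynomial (Low n) ℂ))) :=
    (RingEquiv.quotientBot (MvPolynomial (Low n) ℂ)).symm
  exact ⟨e.symm.toMulEquiv.isDomain _, e.toMulEquiv.uniqueFactorizationMonoid inferInstance⟩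

theorem CVBase_inj {B R : Type} [CommRing B] [CommRing R] [Nontrivial R] (β : B →+* R)
    (h : FinFree β) : Function.Injective β := by
  let _ := β.toAlgebra
  have : Module.Free B R := h.2
  have : FaithfulSMul B R := inferInstance
  exact FaithfulSMul.algebraMap_injective B R

/-- base case of `CV` -/
theorem CV_base : CanDual (bet (Fin.revPerm : Equiv.Perm (Fin n)) (len (Fin.revPerm : Equiv.Perm (Fin n))))
    (bd 1 (Fin.revPerm : Equiv.Perm (Fin n))) := by
  obtain ⟨hdom, hufd⟩ := CVBase_ring _ (VI_one_rev (n := n))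
  have hf := bet_finFree (Fin.revPerm : Equiv.Perm (Fin n))
  have hinj := CVBase_inj _ hf
  have h1 := base_dual _ hinj hf
  obtain ⟨g, hg, hbd⟩ := inter_principal
    (fun w : {w : Equiv.Perm (Fin n) // cov w Fin.revPerm} => Pid 1 Fin.revPerm w.1)
    (fun w => Pid_isPrime w.2.1 (SS_one_nonempty w.1))
    (fun w => Pid_height w.2 (SS_one_nonempty w.1))
  have hbd' : Submodule.span (CR (SS 1 (Fin.revPerm : Equiv.Perm (Fin n)))) {g} =
      bd 1 (Fin.revPerm : Equiv.Perm (Fin n)) := hbd.symm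
  exact CanDual.congr ((LinearEquiv.toSpanNonzeroSingleton _ _ g hg).trans
    (LinearEquiv.ofEq _ _ hbd')) h1

end CMT
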