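import Pool.Agent.H43.CM.F.Iface
import Pool.Agent.H43.CM.F.Quot

/-!
# MP_7fe4b4_ag, job F-CVStep-a : separating minors for the induction step of `CV`

The statements `exists_sep`, `CV_h2`, `CV_h3` of the job F-CVStep; the proofs are those of its header.
-/

open MvPolynomial

noncomputable section

namespace CMT

variable {n : ℕ}

theorem CVStepA_rk_min (w : Equiv.Perm (Fin n)) (i k : ℕ) : rk w i k = rk w i (min k n) := by
  unfold rk
  congr 1
  refine Finset.filter_congr fun j _ => ?_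
  have := j.2
  constructor
  · rintro ⟨h1, h2⟩
    exact ⟨lt_min h1 this, h2⟩
  · rintro ⟨h1, h2⟩
    exact ⟨lt_of_lt_of_le h1 (min_le_left _ _), h2⟩

/-- separating minors: for `v'' ≠ v'` of the same length there is `k ≤ n` with
`Δ_{v',k} = 0` on `X_{v''}` -/
theorem exists_sep {v' v'' : Equiv.Perm (Fin n)} (hl : len v'' = len v') (hne : v'' ≠ v') :
    ∃ (k : ℕ) (_ : k ≤ n) (i : ℕ), rk v'' i k < rk v' i k := by
  have h1 : ¬ ble v' v'' := fun h => hne (eq_of_ble_of_len h hl.symm).symm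
  unfold ble at h1
  push Not at h1
  obtain ⟨i, k, hik⟩ := h1
  refine ⟨min k n, min_le_right _ _, i, ?_⟩
  rwa [← CVStepA_rk_min, ← CVStepA_rk_min]

theorem CVStepA_mem {v v' v'' : Equiv.Perm (Fin n)} (h : ble v'' v) (k : ℕ) (hk : k ≤ n) (i : ℕ)
    (hi : rk v'' i k < rk v' i k) :
    Ideal.Quotient.mk (VI (SS 1 v)) (pmnr 1 v' k hk) ∈ Pid 1 v v'' := by
  rw [mk_mem_Pid h, MvPolynomial.mem_vanishingIdeal_iff]
  intro z hz
  rw [aeval_pmnr]
  exact mnr_eq_zero hz k hk i hi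

theorem CVStepA_len {v v' v'' : Equiv.Perm (Fin n)} (h' : cov v' v) (h'' : cov v'' v) :
    len v'' = len v' := by
  have h1 := h'.2
  have h2 := h''.2
  omega

theorem CV_h2 {v' w : Equiv.Perm (Fin n)} (q : ℕ) (hq : q + 1 < n) (ha : asc v' q hq)
    (hw : cov w v') (hcov : cov v' (v' * sr q hq)) :
    ∃ b : CR (SS 1 (v' * sr q hq)),
      (∀ i : {w : Equiv.Perm (Fin n) // cov w (v' * sr q hq) ∧ w ≠ v'},
        b ∈ Pid 1 (v' * sr q hq) i.1) ∧
      pr (x := 1) hcov.1 b ∈ Pid 1 v' w ∧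
      ∀ h, h ∉ Pid 1 v' w → h * pr (x := 1) hcov.1 b ∉ (Pid 1 v' w) ^ 2 := by
  classical
  obtain ⟨v'', hne, hcov'', hble, huniq⟩ := thin q hq hw ha
  have hl : len v'' = len v' := CVStepA_len hcov hcov''
  obtain ⟨k, hk, i0, hi0⟩ := exists_sep hl hne
  have hwne : (SS 1 w).Nonempty := SS_nonempty_of_ble (ble_one w)
  have hwv : ble w (v' * sr q hq) := ble_trans hw.1 hcov.1
  have hP : (Pid 1 (v' * sr q hq) w).IsPrime := Pid_isPrime hwv hwne
  have hP' : (Pid 1 v' w).IsPrime := Pid_isPrime hw.1 hwne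
  have hG : ∀ i : {w : Equiv.Perm (Fin n) // cov w (v' * sr q hq) ∧ w ≠ v'},
      ∃ g : CR (SS 1 (v' * sr q hq)), (i.1 ≠ v'' → g ∈ Pid 1 (v' * sr q hq) i.1) ∧
        g ∉ Pid 1 (v' * sr q hq) w := by
    intro i
    by_cases hi : i.1 = v''
    · exact ⟨1, fun h => absurd hi h, fun h1 => hP.ne_top ((Ideal.eq_top_iff_one _).2 h1)⟩
    · have h1 : ¬ Pid 1 (v' * sr q hq) i.1 ≤ Pid 1 (v' * sr q hq) w := by
        rw [Pid_le_iff i.2.1.1 hwv hwne]
        intro h2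
        exact hi (huniq i.1 i.2.2 i.2.1 h2)
      obtain ⟨g, hg1, hg2⟩ := SetLike.not_le_iff_exists.1 h1
      exact ⟨g, fun _ => hg1, hg2⟩
  choose G hG1 hG2 using hG
  have hg : ∏ i, G i ∉ Pid 1 (v' * sr q hq) w := by
    intro h
    rw [Ideal.IsPrime.prod_mem_iff] at h
    obtain ⟨i, _, hi⟩ := h
    exact hG2 i hi
  set g := ∏ i, G i with hgdef
  have hrk : ¬ ∀ i, rk w i k = rk v' i k := fun h => by
    have h1 := hble i0 k
    have h2 := h i0
    omega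
  refine ⟨g * Ideal.Quotient.mk _ (pmnr 1 v' k hk), ?_, ?_, ?_⟩
  · intro i
    by_cases hi : i.1 = v''
    · rw [hi]
      exact Ideal.mul_mem_left _ _ (CVStepA_mem hcov''.1 k hk i0 hi0)
    · refine Ideal.mul_mem_right _ _ ?_
      exact Ideal.mem_of_dvd _ (Finset.dvd_prod_of_mem G (Finset.mem_univ i)) (hG1 i hi)
  · rw [map_mul, pr_mk]
    exact Ideal.mul_mem_left _ _ ((pmnr_mem_Pid hw.1 hwne k hk).2 hrk)
  · intro h hh
    rw [map_mul, pr_mk, ← mul_assoc]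
    refine pmnr_order_one hw hwne k hk hrk _ ?_
    intro hc
    rcases hP'.mem_or_mem hc with h1 | h1
    · exact hh h1
    · apply hg
      rw [← comap_pr hcov.1 hw.1]
      exact h1

theorem CV_h3 {v' : Equiv.Perm (Fin n)} (q : ℕ) (hq : q + 1 < n) (ha : asc v' q hq)
    (hcov : cov v' (v' * sr q hq)) (Q : Ideal (CR (SS 1 v'))) (hQ : Q.IsPrime)
    (hQh : Q.height = 1)
    (hne : ∀ j : {w : Equiv.Perm (Fin n) // cov w v'}, Q ≠ Pid 1 v' j.1) :
    ∃ b : CR (SS 1 (v' * sr q hq)),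
      (∀ i : {w : Equiv.Perm (Fin n) // cov w (v' * sr q hq) ∧ w ≠ v'},
        b ∈ Pid 1 (v' * sr q hq) i.1) ∧ pr (x := 1) hcov.1 b ∉ Q := by
  classical
  have hK : ∀ i : {w : Equiv.Perm (Fin n) // cov w (v' * sr q hq) ∧ w ≠ v'},
      ∃ (k : ℕ) (_ : k ≤ n) (j : ℕ), rk i.1 j k < rk v' j k := fun i =>
    exists_sep (CVStepA_len hcov i.2.1) i.2.2
  choose K hK1 J hJ using hK
  refine ⟨∏ i, Ideal.Quotient.mk _ (pmnr 1 v' (K i) (hK1 i)), ?_, ?_⟩
  · intro i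
    exact Ideal.mem_of_dvd _ (Finset.dvd_prod_of_mem
      (fun i => Ideal.Quotient.mk (VI (SS 1 (v' * sr q hq))) (pmnr 1 v' (K i) (hK1 i)))
      (Finset.mem_univ i)) (CVStepA_mem i.2.1.1 (K i) (hK1 i) (J i) (hJ i))
  · rw [map_prod]
    intro h
    rw [Ideal.IsPrime.prod_mem_iff] at h
    obtain ⟨i, _, hi⟩ := h
    rw [pr_mk] at hi
    obtain ⟨w, hw, _, hQw⟩ := exists_cov_of_pmnr_mem (SS_nonempty_of_ble (ble_one v')) Q hQh
      (K i) (hK1 i) hi
    exact hne ⟨w, hw⟩ hQw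

end CMT
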