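import Pool.Agent.H43.CM.C.N1

/-!
# Dualizing functionals (PART F)

`HasDual B R W` : the `R`-module `W` is isomorphic to `Hom_B(R, B)`; the isomorphism is
`w ↦ (r ↦ l (r • w))` for a `B`-linear functional `l` on `W`.

## JOB CM-F01
* `hasDual_congr`: compose `l` with `e.symm`.
* `HasDual.inj`: apply the uniqueness to `φ r = l (r • w)`.
* `exists_functional`: `R` is a finite torsion-free module over the domain `B`, `x ≠ 0`.  Let `F` be
  the fraction field of `B`, `V` the localization of `R` at `B \ {0}` (`LocalizedModule` or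
  `F ⊗ R`), a finite dimensional `F`-vector space in which `x ≠ 0`; take an `F`-linear functional
  `ψ` with `ψ x = 1`; clear the denominators of the values of `ψ` at a finite set of generators of
  `R`.  [Or: `Module.Finite`, torsion free over a domain embeds in a free module of finite rank.]
-/

noncomputable section

namespace CMT

/-- `W ≅ Hom_B(R, B)` -/
def HasDual (B R : Type) [CommRing B] [CommRing R] [Algebra B R] (W : Type) [AddCommGroup W]
    [Module R W] [Module B W] : Prop :=
  ∃ l : W →ₗ[B] B, ∀ φ : R →ₗ[B] B, ∃! w : W, ∀ r : R, φ r = l (r • w)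

variable {B R : Type} [CommRing B] [CommRing R] [Algebra B R]

theorem hasDual_congr {W W' : Type} [AddCommGroup W] [Module R W] [Module B W]
    [IsScalarTower B R W] [AddCommGroup W'] [Module R W'] [Module B W'] [IsScalarTower B R W']
    (e : W ≃ₗ[R] W') (h : HasDual B R W) : HasDual B R W' := by
  obtain ⟨l, hl⟩ := h
  refine ⟨l ∘ₗ (e.symm.toLinearMap.restrictScalars B), fun φ => ?_⟩
  obtain ⟨w, hw, hu⟩ := hl φ
  refine ⟨e w, fun r => ?_, fun w' hw' => ?_⟩
  · rw [hw r]
    simp
  · have h2 : e.symm w' = w := by
      apply hu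
      intro r
      rw [hw' r]
      simp
    rw [← h2, LinearEquiv.apply_symm_apply]

theorem hasDual_inj {W : Type} [AddCommGroup W] [Module R W] [Module B W] [IsScalarTower B R W]
    (l : W →ₗ[B] B) (h : ∀ φ : R →ₗ[B] B, ∃! w : W, ∀ r : R, φ r = l (r • w)) (w w' : W)
    (hw : ∀ r : R, l (r • w) = l (r • w')) : w = w' := by
  obtain ⟨v, hv, hu⟩ := h (l ∘ₗ ((LinearMap.toSpanSingleton R W w).restrictScalars B))
  have h1 : w = v := hu w (fun r => by simp)
  have h2 : w' = v := hu w' (fun r => by simp [hw r])
  rw [h1, h2]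

theorem exists_functional [IsDomain B] [IsDomain R] [Module.Finite B R] [FaithfulSMul B R]
    (x : R) (hx : x ≠ 0) : ∃ φ : R →ₗ[B] B, φ x ≠ 0 := by
  classical
  have hinj : Function.Injective (algebraMap B (FractionRing R)) := by
    rw [IsScalarTower.algebraMap_eq B R (FractionRing R)]
    exact (IsFractionRing.injective R (FractionRing R)).comp
      (FaithfulSMul.algebraMap_injective B R)
  have : FaithfulSMul B (FractionRing R) := (faithfulSMul_iff_algebraMap_injective B _).2 hinj
  let _ : Algebra (FractionRing B) (FractionRing R) := FractionRing.liftAlgebra B (FractionRing R)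
  have : IsScalarTower B (FractionRing B) (FractionRing R) :=
    FractionRing.isScalarTower_liftAlgebra B (FractionRing R)
  have hx' : algebraMap R (FractionRing R) x ≠ 0 := by
    intro h0
    apply hx
    apply IsFractionRing.injective R (FractionRing R)
    rw [h0, map_zero]
  obtain ⟨ψ, hψ⟩ : ∃ ψ : Module.Dual (FractionRing B) (FractionRing R),
      ψ (algebraMap R (FractionRing R) x) ≠ 0 := by
    by_contra hc
    push Not at hc
    exact hx' ((Module.forall_dual_apply_eq_zero_iff (FractionRing B) _).1 hc)
  obtain ⟨S, hS⟩ := (Module.Finite.fg_top : (⊤ : Submodule B R).FG)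
  obtain ⟨b, hb⟩ := IsLocalization.exist_integer_multiples_of_finset (nonZeroDivisors B)
    (S.image (fun r => ψ (algebraMap R (FractionRing R) r)))
  let g : R →ₗ[B] FractionRing B := (b : B) • ((ψ.restrictScalars B) ∘ₗ
    ((Algebra.linearMap R (FractionRing R)).restrictScalars B))
  have hg : ∀ r, g r = (b : B) • ψ (algebraMap R (FractionRing R) r) := fun r => rfl
  have hgr : ∀ r, g r ∈ LinearMap.range (Algebra.linearMap B (FractionRing B)) := by
    intro r
    have hr : r ∈ Submodule.span B (S : Set R) := by rw [hS]; trivial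
    have hle : Submodule.span B (S : Set R) ≤
        (LinearMap.range (Algebra.linearMap B (FractionRing B))).comap g := by
      rw [Submodule.span_le]
      intro s hs
      have h3 := hb _ (Finset.mem_image_of_mem _ hs)
      obtain ⟨c, hc⟩ := h3
      refine ⟨c, ?_⟩
      rw [hg, Algebra.linearMap_apply]
      exact hc
    exact hle hr
  have hinj2 : Function.Injective (Algebra.linearMap B (FractionRing B)) :=
    IsFractionRing.injective B (FractionRing B)
  refine ⟨(LinearEquiv.ofInjective _ hinj2).symm.toLinearMap ∘ₗ (g.codRestrict _ hgr), ?_⟩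
  intro h0
  have h1 : g.codRestrict _ hgr x = 0 := by
    have h2 := congrArg (LinearEquiv.ofInjective _ hinj2) h0
    simpa using h2
  have h3 : g x = 0 := by
    have h4 := congrArg Subtype.val h1
    simpa using h4
  rw [hg] at h3
  rcases smul_eq_zero.1 h3 with h5 | h5
  · exact nonZeroDivisors.coe_ne_zero b h5
  · exact hψ h5

/-- the dual is not zero -/
theorem hasDual_ne_bot [IsDomain B] [IsDomain R] [Module.Finite B R] [FaithfulSMul B R]
    (W : Ideal R) (h : HasDual B R W) : W ≠ ⊥ := by
  rintro rfl
  obtain ⟨l, hl⟩ := h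
  obtain ⟨φ, hφ⟩ := exists_functional (B := B) (1 : R) one_ne_zero
  obtain ⟨w, hw, -⟩ := hl φ
  apply hφ
  have h2 : (1 : R) • w = 0 := Subsingleton.elim _ _
  rw [hw 1, h2, map_zero]

end CMT
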