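import Pool.Agent.H43.CM.C.N1

/-!
# JOB CM-E6 : a divisor with prescribed multiplicities  (E6)

`R` Noetherian normal domain.  `Q i` height one primes, `Δ k ≠ 0`.  In `R_{Q i}` (a DVR, see
`unif_of_sq`, `dvr_height_one`) `Δ k` is a unit or a uniformizer.
Work with the following divisibility calculus at `Q = Q i`: for `x : R` and `n : ℕ` put
`V x n :⟺ ∃ s ∉ Q, ∃ r, s x = Δ^n r` where `Δ` is one of the `Δ k` in `Q i`
(there is one: the sum of the `e k` over `k` with `Δ k ∈ Q i` is `1 ≠ 0`), or with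
`addVal` of the DVR `Localization.AtPrime (Q i)`: `v(x) ∈ ℕ∞`, `v(x) ≥ 1 ↔ x ∈ Q i`,
`v(Δ k) = 1` or `0`; so `v(fp) = ∑_{k, Δ k ∈ Q i} max(e k, 0)`, `v(fm) = ∑ max(- e k, 0)` and
`v(fp) = v(fm) + 1`.
* `→`: `g ∈ ⨅ Q i`. Show `fp ∣ fm g` with `N1`: let `Q'` be a height one prime.  If `Q' = Q i`:
  `v(fm g) ≥ v(fm) + 1 = v(fp)` so `s fm g ∈ fp R` for some `s ∉ Q i`.  If `Q'` is not one of the
  `Q i`, no `Δ k` is in `Q'` so `fp ∉ Q'` and `s := fp` works.
* `←`: `fm g = fp r`: `v(fm) + v(g) = v(fp) + v(r)`, so `v(g) = 1 + v(r) ≥ 1`, `g ∈ Q i`.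
-/

noncomputable section

namespace CMT

variable {R : Type} [CommRing R] [IsDomain R] [IsIntegrallyClosed R] [IsNoetherianRing R]

/-- The valuation of a height one prime. -/
theorem E6_val (Q : Ideal R) [Q.IsPrime] (hQ : Q.height = 1) :
    ∃ v : R → ℕ∞, (∀ x y, v (x * y) = v x + v y) ∧ v 1 = 0 ∧ (∀ x, v x = 0 ↔ x ∉ Q) ∧
      (∀ x y, v x ≤ v y → ∃ s, s ∉ Q ∧ x ∣ s * y) ∧
      ∀ β ∈ Q, (∀ s, s ∉ Q → s * β ∉ Q ^ 2) → v β = 1 := by
  have := dvr_height_one Q hQ
  set L := Localization.AtPrime Q with hL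
  have hinj : Function.Injective (algebraMap R L) := FaithfulSMul.algebraMap_injective R L
  have hdvd : ∀ x y : R, algebraMap R L x ∣ algebraMap R L y → ∃ s, s ∉ Q ∧ x ∣ s * y := by
    rintro x y ⟨c, hc⟩
    obtain ⟨b, t, rfl⟩ := IsLocalization.exists_mk'_eq Q.primeCompl c
    refine ⟨t, t.2, b, ?_⟩
    apply hinj
    rw [map_mul, map_mul, hc, mul_comm, mul_assoc, IsLocalization.mk'_spec]
  have hv0 : ∀ x : R, IsDiscreteValuationRing.addVal L (algebraMap R L x) = 0 ↔ x ∉ Q := by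
    intro x
    rw [IsDiscreteValuationRing.addVal_eq_zero_iff]
    have := IsLocalization.AtPrime.to_map_mem_maximal_iff L Q x
    rw [← this, IsLocalRing.mem_maximalIdeal, mem_nonunits_iff, not_not]
  refine ⟨fun x => IsDiscreteValuationRing.addVal L (algebraMap R L x), ?_, ?_, hv0, ?_, ?_⟩
  · intro x y
    simp only [map_mul]
    exact IsDiscreteValuationRing.addVal_mul
  · simp only [map_one]
    exact IsDiscreteValuationRing.addVal_one
  · intro x y h
    exact hdvd x y (IsDiscreteValuationRing.addVal_le_iff_dvd.1 h)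
  · intro β hβ h
    apply le_antisymm
    · obtain ⟨ϖ, hϖ⟩ := IsDiscreteValuationRing.exists_irreducible L
      obtain ⟨a, s, rfl⟩ := IsLocalization.exists_mk'_eq Q.primeCompl ϖ
      have hu : IsUnit (algebraMap R L s) := IsLocalization.map_units _ s
      have ha : IsDiscreteValuationRing.addVal L (algebraMap R L a) = 1 := by
        rw [← IsDiscreteValuationRing.addVal_uniformizer hϖ,
          IsDiscreteValuationRing.addVal_eq_iff_associated]
        refine (Associated.symm ⟨hu.unit, ?_⟩)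
        show IsLocalization.mk' L a s * algebraMap R L s = _
        exact IsLocalization.mk'_spec _ a s
      have haQ : a ∈ Q := by
        by_contra hc
        rw [← hv0] at hc
        rw [hc] at ha
        exact absurd ha (by simp)
      obtain ⟨t, ht, hd⟩ := unif_of_sq Q hQ β hβ h a haQ
      have h1 : IsDiscreteValuationRing.addVal L (algebraMap R L β) ≤
          IsDiscreteValuationRing.addVal L (algebraMap R L (t * a)) :=
        IsDiscreteValuationRing.addVal_le_iff_dvd.2 (map_dvd _ hd)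
      rw [map_mul, IsDiscreteValuationRing.addVal_mul, (hv0 t).2 ht, zero_add, ha] at h1
      exact h1
    · rw [Order.one_le_iff_ne_zero]
      intro hc
      exact (hv0 β).1 hc hβ

omit [IsDomain R] [IsIntegrallyClosed R] [IsNoetherianRing R] in
theorem E6_prod {ι : Type} (v : R → ℕ∞) (hm : ∀ x y, v (x * y) = v x + v y) (h1 : v 1 = 0)
    (s : Finset ι) (f : ι → R) : v (∏ k ∈ s, f k) = ∑ k ∈ s, v (f k) := by
  classical
  induction s using Finset.induction_on with
  | empty => simpa using h1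
  | insert a s ha ih => rw [Finset.prod_insert ha, Finset.sum_insert ha, hm, ih]

omit [IsDomain R] [IsIntegrallyClosed R] [IsNoetherianRing R] in
theorem E6_pow (v : R → ℕ∞) (hm : ∀ x y, v (x * y) = v x + v y) (h1 : v 1 = 0)
    (x : R) (n : ℕ) : v (x ^ n) = n * v x := by
  induction n with
  | zero => simpa using h1
  | succ n ih => rw [pow_succ, hm, ih]; push_cast; ring

open Classical in
theorem E6 {ι κ : Type} [Fintype κ] (Q : ι → Ideal R) (hQ : ∀ i, (Q i).IsPrime)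
    (hQ1 : ∀ i, (Q i).height = 1) (Δ : κ → R) (hΔ : ∀ k, Δ k ≠ 0)
    (h1 : ∀ Q' : Ideal R, Q'.IsPrime → Q'.height = 1 → ∀ k, Δ k ∈ Q' → ∃ i, Q' = Q i)
    (h2 : ∀ i k, Δ k ∈ Q i → ∀ s, s ∉ Q i → s * Δ k ∉ (Q i) ^ 2)
    (e : κ → ℤ) (he : ∀ i, ∑ k, (if Δ k ∈ Q i then e k else 0) = 1) (g : R) :
    g ∈ ⨅ i, Q i ↔
      ∃ r, (∏ k, Δ k ^ (- e k).toNat) * g = (∏ k, Δ k ^ (e k).toNat) * r := by
  have key : ∀ i, ∃ v : R → ℕ∞, ∃ a : ℕ, (∀ x y, v (x * y) = v x + v y) ∧
      (∀ x, v x = 0 ↔ x ∉ Q i) ∧ (∀ x y, v x ≤ v y → ∃ s, s ∉ Q i ∧ x ∣ s * y) ∧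
      v (∏ k, Δ k ^ (- e k).toNat) = a ∧ v (∏ k, Δ k ^ (e k).toNat) = a + 1 := by
    intro i
    have := hQ i
    obtain ⟨v, hm, hv1, hv0, hd, hu⟩ := E6_val (Q i) (hQ1 i)
    have hvk : ∀ k, v (Δ k) = if Δ k ∈ Q i then 1 else 0 := by
      intro k
      split_ifs with h
      · exact hu (Δ k) h (h2 i k h)
      · exact (hv0 _).2 h
    have hprod : ∀ n : κ → ℕ, v (∏ k, Δ k ^ n k)
        = ((∑ k, (if Δ k ∈ Q i then n k else 0) : ℕ) : ℕ∞) := by
      intro n
      rw [E6_prod v hm hv1]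
      push_cast
      refine Finset.sum_congr rfl fun k _ => ?_
      rw [E6_pow v hm hv1, hvk]
      split_ifs <;> simp
    refine ⟨v, ∑ k, (if Δ k ∈ Q i then (- e k).toNat else 0), hm, hv0, hd, hprod _, ?_⟩
    rw [hprod]
    have : (∑ k, (if Δ k ∈ Q i then (e k).toNat else 0) : ℕ) =
        (∑ k, (if Δ k ∈ Q i then (- e k).toNat else 0) : ℕ) + 1 := by
      have h := he i
      zify
      rw [← h, ← Finset.sum_add_distrib]
      refine Finset.sum_congr rfl fun k _ => ?_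
      split_ifs
      · omega
      · rfl
    rw [this]
    push_cast
    rfl
  constructor
  · intro hg
    have hne : (∏ k, Δ k ^ (e k).toNat) ≠ 0 :=
      Finset.prod_ne_zero_iff.2 fun k _ => pow_ne_zero _ (hΔ k)
    have hdvd : (∏ k, Δ k ^ (e k).toNat) ∣ (∏ k, Δ k ^ (- e k).toNat) * g := by
      refine N1 _ _ hne fun Q' hQ' hQ'1 => ?_
      by_cases hex : ∃ i, Q' = Q i
      · obtain ⟨i, rfl⟩ := hex
        obtain ⟨v, a, hm, hv0, hd, ha, hb⟩ := key i
        refine hd _ _ ?_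
        rw [hm, ha, hb]
        have : v g ≠ 0 := fun h => (hv0 g).1 h (Ideal.mem_iInf.1 hg i)
        exact add_le_add le_rfl (Order.one_le_iff_ne_zero.2 this)
      · refine ⟨∏ k, Δ k ^ (e k).toNat, ?_, dvd_mul_right _ _⟩
        intro hc
        obtain ⟨k, -, hk⟩ := (hQ'.prod_mem_iff).1 hc
        exact hex (h1 Q' hQ' hQ'1 k (hQ'.mem_of_pow_mem _ hk))
    obtain ⟨r, hr⟩ := hdvd
    exact ⟨r, hr⟩
  · rintro ⟨r, hr⟩
    rw [Ideal.mem_iInf]
    intro i
    obtain ⟨v, a, hm, hv0, hd, ha, hb⟩ := key i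
    by_contra hc
    have h0 := (hv0 g).2 hc
    have := congrArg v hr
    rw [hm, hm, ha, hb, h0, add_zero] at this
    have h3 : ((a : ℕ∞) + 1) ≤ a := by
      calc ((a : ℕ∞) + 1) ≤ a + 1 + v r := le_self_add
        _ = a := this.symm
    exact absurd h3 (by
      rw [not_le]
      exact_mod_cast Nat.lt_succ_self a)

end CMT
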