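import Mathlib

/-!
# JOB CM-F02 : primes of `R` over a principal prime of a UFD `B`

`R` is a domain, finite (so integral) over the UFD `B`, `B → R` injective.  `Q ≠ 0` a prime ideal of `R`
with `Q ∩ B ⊆ (π)`, `π` prime in `B`.
* `Q ∩ B ≠ 0`: `Ideal.comap_ne_bot_of_integral_mem` or `Ideal.exists_..`, take `0 ≠ x ∈ Q` and the
  constant coefficient of a minimal integral equation.
* a nonzero prime ideal `P ⊆ (π)` of a UFD is `(π)`: it contains a prime element `π'`
  (`Ideal.IsPrime.exists_mem_prime_of_ne_bot`), `π' ∈ (π)`, so `π` and `π'` are associated.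
* height: `Q ≠ ⊥` so the height is `≥ 1`. If `⊥ ≠ Q1 < Q` is prime then `Q1 ∩ B` is a nonzero prime
  contained in `(π)`, so `Q1 ∩ B = (π) = Q ∩ B`, contradiction to incomparability
  (`Ideal.comap_lt_comap_of_integral_mem` / `Ideal.IsIntegralClosure.comap_lt_comap`).
-/

noncomputable section

namespace CMT

variable {B R : Type} [CommRing B] [IsDomain B] [UniqueFactorizationMonoid B] [CommRing R]
  [IsDomain R] [Algebra B R] [Module.Finite B R] [FaithfulSMul B R]

theorem F1a_comap (p : B) (hp : Prime p) (Q : Ideal R) [Q.IsPrime] (hQ : Q ≠ ⊥)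
    (h : Q.comap (algebraMap B R) ≤ Ideal.span {p}) :
    Q.comap (algebraMap B R) = Ideal.span {p} := by
  have hint : Algebra.IsIntegral B R := inferInstance
  have hne : Q.comap (algebraMap B R) ≠ ⊥ := Ideal.IsIntegral.comap_ne_bot B hQ
  have hP : (Q.comap (algebraMap B R)).IsPrime := Ideal.comap_isPrime _ _
  obtain ⟨q, hq, hqp⟩ := hP.exists_mem_prime_of_ne_bot hne
  refine le_antisymm h ?_
  have h1 : p ∣ q := Ideal.mem_span_singleton.1 (h hq)
  have h2 : Associated p q := (hp.dvd_prime_iff_associated hqp).1 h1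
  rw [Ideal.span_singleton_le_iff_mem]
  exact Ideal.mem_of_dvd _ h2.symm.dvd hq

theorem F1a_height (p : B) (hp : Prime p) (Q : Ideal R) [Q.IsPrime] (hQ : Q ≠ ⊥)
    (h : Q.comap (algebraMap B R) ≤ Ideal.span {p}) : Q.height = 1 := by
  have hint : Algebra.IsIntegral B R := inferInstance
  refine le_antisymm ?_ ?_
  · have h1 : Q.height ≤ ((1 : ℕ) : ℕ∞) := by
      rw [Ideal.height_le_iff]
      intro Q1 hQ1 hlt
      have hbot : Q1 = ⊥ := by
        by_contra hne
        have h2 := Ideal.IsIntegral.comap_lt_comap (R := B) hlt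
        have h3 := F1a_comap p hp Q1 hne (h2.le.trans h)
        have h4 := F1a_comap p hp Q hQ h
        rw [h3, h4] at h2
        exact lt_irrefl _ h2
      rw [hbot, Ideal.height_bot]
      exact_mod_cast one_pos
    simpa using h1
  · rw [Order.one_le_iff_ne_zero, Ne, Ideal.height_eq_zero_iff_eq_bot]
    exact hQ

end CMT
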