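import Pool.Agent.H43.CM.F.Dual
import Pool.Agent.H43.CM.F.F1a

/-!
# JOB CM-F03 : divisoriality of a dual  (F1)

`a := {h : h x ∈ M}` is an ideal containing `M ≠ 0` (`hasDual_ne_bot`).
Step 1: for every prime element `p` of `B` there is `b' ∈ B`, `p ∤ b'`, with `b' x ∈ M`.  Otherwise the
ideal `a` is disjoint from the multiplicative set `image of B \ (p)`, so there is a prime ideal
`Q ⊇ a` disjoint from it (`Ideal.exists_le_prime_disjoint`), so `Q ∩ B ⊆ (p)`, `Q ≠ ⊥`, so
`Q` has height one (`F1a_height`), so by hypothesis some `h ∉ Q` is in `a`, contradiction.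
Step 2: some `0 ≠ b ∈ B` has `b x ∈ M` (`a ≠ 0` and `R` integral over `B`).
Step 3: let `l` be the functional, `ψ r := l (r • (b x))`, a `B`-linear map `R → B`.  Claim: `b ∣ ψ r` for
all `r`.  By unique factorization it is enough that `p^e ∣ b`, `p` prime, implies `p^e ∣ ψ r`: by
Step 1 take `b'` with `p ∤ b'`, `b' x ∈ M`; `b' ψ r = l (r • (b' b x)) = b l (r • (b' x))` is
divisible by `p^e`, and `p ∤ b'`.  [For instance by induction on the number of prime factors of `b`:
statement `∀ b, ∀ y : B, (∀ p prime, ∃ b', ¬ p ∣ b' ∧ b ∣ b' * y) → b ∣ y`.]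
Step 4: so `φ r := ψ r / b` is `B`-linear, `φ = l (r • m)` for some `m ∈ M`, and
`l (r • (b m)) = b φ r = ψ r = l (r • (b x))`, so `b m = b x` (`hasDual_inj`), `x = m ∈ M`.
-/

noncomputable section

namespace CMT

variable {B R : Type} [CommRing B] [IsDomain B] [UniqueFactorizationMonoid B] [CommRing R]
  [IsDomain R] [Algebra B R] [Module.Finite B R] [FaithfulSMul B R]

/-- the ideal of the `h` with `h x ∈ M` -/
private def F1_ideal (M : Ideal R) (x : R) : Ideal R :=
  Submodule.comap (LinearMap.toSpanSingleton R R x) M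

omit [IsDomain R] in
private theorem F1_mem_ideal (M : Ideal R) (x h : R) : h ∈ F1_ideal M x ↔ h * x ∈ M := Iff.rfl

theorem F1_step1 (M : Ideal R) (hM : HasDual B R M) (x : R)
    (hx : ∀ Q : Ideal R, Q.IsPrime → Q.height = 1 → ∃ h, h ∉ Q ∧ h * x ∈ M) (p : B)
    (hp : Prime p) : ∃ b' : B, ¬ p ∣ b' ∧ algebraMap B R b' * x ∈ M := by
  by_contra hcon
  push Not at hcon
  have hpp : (Ideal.span {p} : Ideal B).IsPrime := (Ideal.span_singleton_prime hp.ne_zero).2 hp
  have hdisj : Disjoint ((F1_ideal M x : Ideal R) : Set R)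
      ((Algebra.algebraMapSubmonoid R (Ideal.span {p} : Ideal B).primeCompl : Submonoid R) :
        Set R) := by
    rw [Set.disjoint_left]
    rintro r hr ⟨b, hb, rfl⟩
    have hb' : ¬ p ∣ b := fun h => hb (Ideal.mem_span_singleton.2 h)
    exact hcon b hb' hr
  obtain ⟨Q, hQ, hle, hQd⟩ := Ideal.exists_le_prime_disjoint _ _ hdisj
  have hMQ : M ≤ Q := fun m hm => hle ((F1_mem_ideal M x m).2 (M.mul_mem_right x hm))
  have hQ0 : Q ≠ ⊥ := by
    intro h
    rw [h] at hMQ
    exact hasDual_ne_bot M hM (le_bot_iff.1 hMQ)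
  have hcomap : Q.comap (algebraMap B R) ≤ Ideal.span {p} := by
    intro b hb
    by_contra hnot
    exact Set.disjoint_left.1 hQd hb ⟨b, hnot, rfl⟩
  obtain ⟨h, hh1, hh2⟩ := hx Q hQ (F1a_height p hp Q hQ0 hcomap)
  exact hh1 (hle hh2)

theorem F1_dvd (b y : B) (hb : b ≠ 0) (h : ∀ p : B, Prime p → ∃ b', ¬ p ∣ b' ∧ b ∣ b' * y) :
    b ∣ y := by
  revert hb y
  induction b using UniqueFactorizationMonoid.induction_on_prime with
  | h₁ => intro y hb; exact absurd rfl hb
  | h₂ b hu => intro y _ _; exact hu.dvd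
  | h₃ c p hc hp ih =>
    intro y _ h
    obtain ⟨b', hb', hdvd⟩ := h p hp
    have h1 : p ∣ b' * y := (dvd_mul_right p c).trans hdvd
    obtain ⟨z, rfl⟩ := (hp.dvd_or_dvd h1).resolve_left hb'
    refine mul_dvd_mul_left p (ih z hc fun q hq => ?_)
    obtain ⟨b'', hb'', hdvd'⟩ := h q hq
    refine ⟨b'', hb'', ?_⟩
    have h2 : p * c ∣ p * (b'' * z) := by
      have : b'' * (p * z) = p * (b'' * z) := by ring
      rwa [this] at hdvd'
    exact (mul_dvd_mul_iff_left hp.ne_zero).1 h2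

theorem F1 (M : Ideal R) (hM : HasDual B R M) (x : R)
    (hx : ∀ Q : Ideal R, Q.IsPrime → Q.height = 1 → ∃ h, h ∉ Q ∧ h * x ∈ M) : x ∈ M := by
  have hM0 := hasDual_ne_bot M hM
  have hstep := F1_step1 M hM x hx
  obtain ⟨l, hl⟩ := hM
  -- a nonzero element of `B` in `M`
  obtain ⟨m0, hm0, hm0'⟩ := Submodule.exists_mem_ne_zero_of_ne_bot hM0
  have hint : IsIntegral B m0 := Algebra.IsIntegral.isIntegral m0
  have hne := Ideal.comap_ne_bot_of_integral_mem hm0' hm0 hint
  obtain ⟨b, hbM, hb0⟩ := Submodule.exists_mem_ne_zero_of_ne_bot hne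
  have hbM' : algebraMap B R b ∈ M := hbM
  have hbx : algebraMap B R b * x ∈ M := M.mul_mem_right x hbM'
  obtain ⟨w, hw⟩ : ∃ w : M, (w : R) = algebraMap B R b * x := ⟨⟨_, hbx⟩, rfl⟩
  obtain ⟨ψ, hψ⟩ : ∃ ψ : R →ₗ[B] B, ∀ r, ψ r = l (r • w) :=
    ⟨l ∘ₗ ((LinearMap.toSpanSingleton R M w).restrictScalars B), fun r => rfl⟩
  have hdvd : ∀ r, b ∣ ψ r := by
    intro r
    refine F1_dvd b (ψ r) hb0 fun p hp => ?_
    obtain ⟨b', hb', hb'x⟩ := hstep p hp
    refine ⟨b', hb', l (r • (⟨algebraMap B R b' * x, hb'x⟩ : M)), ?_⟩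
    rw [hψ, ← smul_eq_mul, ← smul_eq_mul, ← map_smul, ← map_smul]
    refine congrArg l (Subtype.ext ?_)
    show b' • (r * (w : R)) = b • (r * (algebraMap B R b' * x))
    rw [hw, Algebra.smul_def, Algebra.smul_def]
    ring
  choose c hc using hdvd
  let φ : R →ₗ[B] B :=
    { toFun := c
      map_add' := fun r s => by
        apply mul_left_cancel₀ hb0
        rw [← hc, map_add, mul_add, ← hc, ← hc]
      map_smul' := fun a r => by
        apply mul_left_cancel₀ hb0
        rw [← hc, map_smul, RingHom.id_apply, smul_eq_mul, smul_eq_mul, hc r]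
        ring }
  obtain ⟨m, hm, _⟩ := hl φ
  have hbm : b • m = w := by
    refine hasDual_inj l hl _ _ fun r => ?_
    have e1 : r • (b • m) = b • (r • m) := by
      apply Subtype.ext
      show r * (b • (m : R)) = b • (r * (m : R))
      rw [Algebra.smul_def, Algebra.smul_def]
      ring
    rw [e1, map_smul, ← hm r, ← hψ r, smul_eq_mul, hc r]
    rfl
  have h1 : algebraMap B R b * (m : R) = algebraMap B R b * x := by
    rw [← hw, ← hbm]
    show _ = b • (m : R)
    rw [Algebra.smul_def]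
  have h2 : algebraMap B R b ≠ 0 := by
    intro h
    exact hb0 ((FaithfulSMul.algebraMap_injective B R) (by rw [h, map_zero]))
  have h3 := mul_left_cancel₀ h2 h1
  rw [← h3]
  exact m.2

end CMT
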