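import Pool.Agent.H43.CM.F.Dual

/-!
# JOB CM-F04a : the dual as a fractional ideal

`A` domain, finite over the Noetherian domain `B`, `B → A` injective.  Let `F = Frac B`,
`K = FractionRing A`, `[K : F] < ∞`.  Take `φ0 : A → B` nonzero (`exists_functional`), extend it to an
`F`-linear `φK : K → F` (`K` is the localization of `A` at `B \ {0}`, since `A` is a domain integral
over `B`: `IsIntegralClosure`... / `IsLocalization` lemmas for integral extensions;
`IsFractionRing` of an algebraic extension: every element of `K` is `a / b` with `b ∈ B`),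
`M0 := {κ ∈ K : ∀ a ∈ A, φK (κ a) ∈ B}`, `l := φK` restricted (with values in `B`).  For
`φ : A → B` let `φ'` be its extension `K → F`.  The bilinear form
`(x, y) ↦ φK (x y)` on `K` is nondegenerate since `φK ≠ 0` and `K` is a field, so every functional is
`y ↦ φK (κ y)` for a unique `κ` (`LinearMap.BilinForm.toDual`).  So `φ a = φK (κ a)` and `κ ∈ M0`.
Finite generation: `M0 → Hom_B(A, B)`, `κ ↦ (a ↦ φK (κ a))`, is injective and `Hom_B(A, B)` is a
Noetherian `B`-module (`A` finite over the Noetherian ring `B`: `Hom_B(A,B)` embeds in `B^r`), so `M0` is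
a finite `B`-module, so finitely generated over `A`.  `M0 ≠ 0` because `φ0 ≠ 0` is in the image.
-/

noncomputable section

namespace CMT

variable {B A : Type} [CommRing B] [IsDomain B] [IsNoetherianRing B] [CommRing A] [IsDomain A]
  [Algebra B A] [Module.Finite B A] [FaithfulSMul B A]

section F2aAux

open nonZeroDivisors

/-- the lattice of the functional `φK` -/
private def f2aM0 (B A : Type) [CommRing B] [CommRing A] [IsDomain A] [Algebra B A]
    {F : Type} [Field F] [Algebra B F] (φK : FractionRing A →+ F) : Submodule A (FractionRing A) where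
  carrier := {κ | ∀ a : A, ∃ b : B, algebraMap B F b = φK (κ * algebraMap A (FractionRing A) a)}
  add_mem' := by
    intro x y hx hy a
    obtain ⟨b, hb⟩ := hx a
    obtain ⟨c, hc⟩ := hy a
    exact ⟨b + c, by rw [map_add, add_mul, map_add, hb, hc]⟩
  zero_mem' := fun a => ⟨0, by rw [map_zero, zero_mul, map_zero]⟩
  smul_mem' := by
    intro r x hx a
    obtain ⟨b, hb⟩ := hx (r * a)
    refine ⟨b, ?_⟩
    rw [hb, Algebra.smul_def, map_mul (algebraMap A (FractionRing A)) r a]
    congr 1
    ring

end F2aAux

open nonZeroDivisors in
theorem F2_lattice : ∃ M0 : Submodule A (FractionRing A), M0.FG ∧ M0 ≠ ⊥ ∧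
    HasDual B A M0 := by
  classical
  letI : Algebra (FractionRing B) (FractionRing A) := FractionRing.liftAlgebra B (FractionRing A)
  haveI := FractionRing.isScalarTower_liftAlgebra B (FractionRing A)
  haveI : Algebra.IsIntegral B A := Algebra.IsIntegral.of_finite B A
  haveI : Algebra.IsAlgebraic B A := inferInstance
  haveI hlm : IsLocalizedModule B⁰ (IsScalarTower.toAlgHom B A (FractionRing A)).toLinearMap :=
    inferInstance
  haveI hfin : Module.Finite (FractionRing B) (FractionRing A) :=
    Module.Finite.of_isLocalization B A B⁰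
  have hinjB : Function.Injective (algebraMap B (FractionRing B)) :=
    IsFractionRing.injective B (FractionRing B)
  -- extension of functionals
  let ext : (A →ₗ[B] B) → (FractionRing A →ₗ[FractionRing B] FractionRing B) := fun φ =>
    IsLocalizedModule.mapExtendScalars B⁰
      (IsScalarTower.toAlgHom B A (FractionRing A)).toLinearMap
      (Algebra.linearMap B (FractionRing B)) (FractionRing B) φ
  have hext : ∀ φ a, ext φ (algebraMap A (FractionRing A) a) = algebraMap B (FractionRing B) (φ a) := by
    intro φ a
    exact IsLocalizedModule.map_apply B⁰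
      (IsScalarTower.toAlgHom B A (FractionRing A)).toLinearMap
      (Algebra.linearMap B (FractionRing B)) φ a
  -- functionals which vanish on `A` vanish
  have huniq : ∀ ψ ψ' : FractionRing A →ₗ[FractionRing B] FractionRing B,
      (∀ a : A, ψ (algebraMap A (FractionRing A) a) = ψ' (algebraMap A (FractionRing A) a)) →
      ψ = ψ' := by
    intro ψ ψ' h
    apply LinearMap.ext
    intro y
    obtain ⟨⟨a, s⟩, hs⟩ := IsLocalizedModule.surj B⁰
      (IsScalarTower.toAlgHom B A (FractionRing A)).toLinearMap y
    have hs' : (algebraMap B (FractionRing B) (s : B)) • y = algebraMap A (FractionRing A) a := by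
      rw [algebraMap_smul]
      exact hs
    have h1 := h a
    rw [← hs', map_smul, map_smul, smul_eq_mul, smul_eq_mul] at h1
    have hs0 : algebraMap B (FractionRing B) (s : B) ≠ 0 := by
      rw [Ne, ← map_zero (algebraMap B (FractionRing B)), hinjB.eq_iff]
      exact nonZeroDivisors.ne_zero s.2
    exact mul_left_cancel₀ hs0 h1
  obtain ⟨φ0, hφ0⟩ := exists_functional (B := B) (1 : A) one_ne_zero
  set φK := ext φ0 with hφK
  have hφK1 : φK 1 ≠ 0 := by
    have := hext φ0 1
    rw [map_one] at this
    rw [hφK, this, Ne, ← map_zero (algebraMap B (FractionRing B)), hinjB.eq_iff]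
    exact hφ0
  let Φ : FractionRing A →ₗ[FractionRing B] (FractionRing A →ₗ[FractionRing B] FractionRing B) :=
    (LinearMap.mul (FractionRing B) (FractionRing A)).compr₂ φK
  have hΦ : ∀ κ y, Φ κ y = φK (κ * y) := fun κ y => rfl
  have hΦinj : Function.Injective Φ := by
    rw [← LinearMap.ker_eq_bot, LinearMap.ker_eq_bot']
    intro κ hκ
    by_contra hne
    have := hΦ κ (κ⁻¹)
    rw [hκ, mul_inv_cancel₀ hne, LinearMap.zero_apply] at this
    exact hφK1 this.symm
  have hΦsurj : Function.Surjective Φ := by
    refine (LinearMap.injective_iff_surjective_of_finrank_eq_finrank ?_).1 hΦinj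
    exact (Subspace.dual_finrank_eq (K := FractionRing B) (V := FractionRing A)).symm
  let M0 : Submodule A (FractionRing A) := f2aM0 B A (F := FractionRing B) φK.toAddMonoidHom
  have hM0 : ∀ κ, κ ∈ M0 ↔ ∀ a : A, ∃ b : B, algebraMap B (FractionRing B) b =
      φK (κ * algebraMap A (FractionRing A) a) := fun κ => Iff.rfl
  have hl0 : ∀ κ : M0, ∃ b : B, algebraMap B (FractionRing B) b = φK (κ : FractionRing A) := by
    intro κ
    obtain ⟨b, hb⟩ := (hM0 κ).1 κ.2 1
    exact ⟨b, by rw [hb, map_one, mul_one]⟩
  choose l0 hl0 using hl0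
  let l : M0 →ₗ[B] B :=
    { toFun := l0
      map_add' := fun x y => hinjB (by
        rw [map_add, hl0, hl0, hl0, Submodule.coe_add, map_add])
      map_smul' := fun b x => hinjB (by
        rw [RingHom.id_apply, smul_eq_mul, map_mul, hl0, hl0]
        have h1 : ((b • x : M0) : FractionRing A) =
            (algebraMap B (FractionRing B) b) • (x : FractionRing A) := by
          rw [algebraMap_smul]
          rfl
        rw [h1, map_smul, smul_eq_mul]) }
  have hl : ∀ κ : M0, algebraMap B (FractionRing B) (l κ) = φK (κ : FractionRing A) := hl0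
  have hlr : ∀ (κ : M0) (r : A), algebraMap B (FractionRing B) (l (r • κ)) =
      φK ((κ : FractionRing A) * algebraMap A (FractionRing A) r) := by
    intro κ r
    rw [hl, Submodule.coe_smul, Algebra.smul_def, mul_comm]
  have hD : ∀ φ : A →ₗ[B] B, ∃! w : M0, ∀ r : A, φ r = l (r • w) := by
    intro φ
    obtain ⟨κ, hκ⟩ := hΦsurj (ext φ)
    have hκ' : ∀ a : A, φK (κ * algebraMap A (FractionRing A) a) =
        algebraMap B (FractionRing B) (φ a) := by
      intro a
      rw [← hΦ, hκ, hext]
    refine ⟨⟨κ, (hM0 κ).2 fun a => ⟨φ a, (hκ' a).symm⟩⟩, ?_, ?_⟩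
    · intro r
      apply hinjB
      rw [hlr, ← hκ' r]
    · intro w hw
      apply Subtype.ext
      apply hΦinj
      apply huniq
      intro a
      rw [hΦ, hΦ, ← hlr, ← hw a, ← hκ' a]
  have hinjl : ∀ w w' : M0, (∀ r : A, l (r • w) = l (r • w')) → w = w' := by
    intro w w' h
    apply Subtype.ext
    apply hΦinj
    apply huniq
    intro a
    rw [hΦ, hΦ, ← hlr, ← hlr, h a]
  refine ⟨M0, ?_, ?_, l, hD⟩
  · -- finite generation
    obtain ⟨n, s, hs⟩ := Module.Finite.exists_fin (R := B) (M := A)
    let E : M0 →ₗ[B] (Fin n → B) := LinearMap.pi fun i =>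
      { toFun := fun κ => l (s i • κ)
        map_add' := fun x y => by rw [smul_add, map_add]
        map_smul' := fun b x => by
          rw [RingHom.id_apply, ← LinearMap.map_smul]
          congr 1
          exact smul_comm (s i) b x }
    have hE : ∀ κ i, E κ i = l (s i • κ) := fun κ i => rfl
    have hEinj : Function.Injective E := by
      intro w w' h
      apply hinjl
      intro r
      let Lw : A →ₗ[B] B :=
        { toFun := fun r => l (r • w) - l (r • w')
          map_add' := fun x y => by rw [add_smul, add_smul, map_add, map_add]; ring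
          map_smul' := fun b x => by
            rw [RingHom.id_apply, smul_assoc, smul_assoc, LinearMap.map_smul, LinearMap.map_smul,
              smul_sub] }
      have h0 : Lw = 0 := by
        apply LinearMap.ext_on_range hs
        intro i
        change l (s i • w) - l (s i • w') = 0
        rw [← hE, ← hE, h, sub_self]
      have := congrArg (fun f : A →ₗ[B] B => f r) h0
      exact sub_eq_zero.1 this
    haveI : IsNoetherian B M0 := isNoetherian_of_injective E hEinj
    haveI : Module.Finite B M0 := inferInstance
    haveI : Module.Finite A M0 := Module.Finite.of_restrictScalars_finite B A M0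
    exact Module.Finite.iff_fg.1 inferInstance
  · intro hbot
    have h1 : (1 : FractionRing A) ∈ M0 := by
      rw [hM0]
      intro a
      refine ⟨φ0 a, ?_⟩
      rw [one_mul, hφK, hext]
    rw [hbot, Submodule.mem_bot] at h1
    exact one_ne_zero h1

end CMT
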