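import Mathlib

/-!
# JOB CM-F04b : a fractional ideal of a UFD is isomorphic to an ideal without common divisor

`A` a UFD, `M0` a finitely generated nonzero `A`-submodule of `K = FractionRing A`.  Clear the
denominators of the generators: `c M0 ⊆ A`, `c ≠ 0`; `M1 := {a : a ∈ c M0}` is a nonzero finitely generated
ideal isomorphic to `M0`.  Let `g` be a gcd of a finite set of generators of `M1`
(noncomputable `GCDMonoid` / `NormalizedGCDMonoid` structure of a UFD, `Finset.gcd`; or: choose a
nonzero element `m` of `M1` and among the divisors `g` of `m` with `M1 ≤ (g)` one with the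
maximal number of prime factors).  `M2 := {a : g a ∈ M1}`, `M1 = g M2 ≅ M2`.  If `M2 ≤ (p)` then
`M1 ≤ (g p)`, contradiction.
-/

noncomputable section

namespace CMT

variable {A : Type} [CommRing A] [IsDomain A] [UniqueFactorizationMonoid A]

/-- multiplication by `k` maps `M0` into `A` -/
def F2b_Int (M0 : Submodule A (FractionRing A)) (k : FractionRing A) : Prop :=
  ∀ x ∈ M0, ∃ a : A, algebraMap A (FractionRing A) a = k * x

omit [UniqueFactorizationMonoid A] in
theorem F2b_clear (M0 : Submodule A (FractionRing A)) (hfg : M0.FG) :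
    ∃ k : FractionRing A, k ≠ 0 ∧ F2b_Int M0 k := by
  obtain ⟨s, hs⟩ := hfg
  obtain ⟨b, hb⟩ := IsLocalization.exist_integer_multiples_of_finset (nonZeroDivisors A) s
  refine ⟨algebraMap A (FractionRing A) b, ?_, ?_⟩
  · exact IsFractionRing.to_map_ne_zero_of_mem_nonZeroDivisors b.2
  · intro x hx
    rw [← hs] at hx
    induction hx using Submodule.span_induction with
    | mem x hx =>
      obtain ⟨a, ha⟩ := hb x hx
      refine ⟨a, ?_⟩
      rw [ha, Algebra.smul_def]
    | zero => exact ⟨0, by simp⟩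
    | add x y _ _ hx hy =>
      obtain ⟨a, ha⟩ := hx
      obtain ⟨a', ha'⟩ := hy
      exact ⟨a + a', by rw [map_add, ha, ha', mul_add]⟩
    | smul c x _ hx =>
      obtain ⟨a, ha⟩ := hx
      refine ⟨c * a, ?_⟩
      rw [map_mul, ha, Algebra.smul_def]
      ring

theorem F2_ideal (M0 : Submodule A (FractionRing A)) (hfg : M0.FG) (h0 : M0 ≠ ⊥) :
    ∃ M2 : Ideal A, Nonempty (M0 ≃ₗ[A] M2) ∧ ∀ p : A, Prime p → ¬ M2 ≤ Ideal.span {p} := by
  classical
  obtain ⟨m0, hm0, hm0'⟩ := (Submodule.ne_bot_iff _).1 h0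
  let S : Set A := {a | ∃ k : FractionRing A, k ≠ 0 ∧ F2b_Int M0 k ∧
    algebraMap A (FractionRing A) a = k * m0}
  have hS : S.Nonempty := by
    obtain ⟨k, hk, hk'⟩ := F2b_clear M0 hfg
    obtain ⟨a, ha⟩ := hk' m0 hm0
    exact ⟨a, k, hk, hk', ha⟩
  have hinj : Function.Injective (algebraMap A (FractionRing A)) :=
    IsFractionRing.injective A (FractionRing A)
  obtain ⟨a, ⟨k, hk, hkM, hka⟩, hmin⟩ :=
    (wellFounded_dvdNotUnit (α := A)).has_min S hS
  let φ : FractionRing A →ₗ[A] FractionRing A := LinearMap.mulLeft A k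
  have hφ : Function.Injective φ := by
    intro x y hxy
    exact mul_left_cancel₀ hk hxy
  let M2 : Ideal A := Submodule.comap (Algebra.linearMap A (FractionRing A)) (M0.map φ)
  refine ⟨M2, ?_, ?_⟩
  · have e1 : M0 ≃ₗ[A] M0.map φ := Submodule.equivMapOfInjective φ hφ M0
    have hmap : Submodule.map (Algebra.linearMap A (FractionRing A)) M2 = M0.map φ := by
      apply le_antisymm
      · exact Submodule.map_comap_le _ _
      · rintro _ ⟨x, hx, rfl⟩
        obtain ⟨b, hb⟩ := hkM x hx
        refine ⟨b, ?_, hb⟩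
        show algebraMap A (FractionRing A) b ∈ M0.map φ
        rw [hb]
        exact ⟨x, hx, rfl⟩
    have e2 : M2 ≃ₗ[A] Submodule.map (Algebra.linearMap A (FractionRing A)) M2 :=
      Submodule.equivMapOfInjective _ hinj M2
    exact ⟨e1.trans ((LinearEquiv.ofEq _ _ hmap.symm).trans e2.symm)⟩
  · intro p hp hle
    have hp0 : algebraMap A (FractionRing A) p ≠ 0 := fun h =>
      hp.ne_zero (hinj (by rw [h, map_zero]))
    have key : F2b_Int M0 (k / algebraMap A (FractionRing A) p) := by
      intro x hx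
      obtain ⟨b, hb⟩ := hkM x hx
      have hb2 : b ∈ M2 := by
        show algebraMap A (FractionRing A) b ∈ M0.map φ
        rw [hb]
        exact ⟨x, hx, rfl⟩
      obtain ⟨c, hc⟩ := Ideal.mem_span_singleton'.1 (hle hb2)
      refine ⟨c, ?_⟩
      rw [← hc, map_mul] at hb
      field_simp
      rw [hb]
    obtain ⟨a', ha'⟩ := key m0 hm0
    refine hmin a' ⟨_, div_ne_zero hk hp0, key, ha'⟩ ⟨?_, p, hp.not_isUnit, ?_⟩
    · rintro rfl
      rw [map_zero] at ha'
      exact (mul_ne_zero (div_ne_zero hk hp0) hm0') ha'.symm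
    · apply hinj
      rw [map_mul, ha', hka]
      field_simp

end CMT
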