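import Pool.Agent.H43.CM.F.F1
import Pool.Agent.H43.CM.F.F2a
import Pool.Agent.H43.CM.F.F2b

/-!
# JOB CM-F04 : the dual of a UFD over a UFD is free  (F2)

`A` UFD, finite over the Noetherian UFD `B`, `B → A` injective.  `F2_lattice` gives `M0`,
`F2_ideal` gives `M2 ≅ M0`, so `HasDual B A M2` (`hasDual_congr`).  Apply `F1` to `M = M2` and `x = 1`:
a height one prime `Q` of the UFD `A` contains a prime element `p`
(`Ideal.IsPrime.exists_mem_prime_of_ne_bot`), so `Q = (p)` (both have height one, or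
`Ideal.eq_span_singleton_of_height_eq_one`), so there is `h ∈ M2`, `h ∉ Q`, `h * 1 ∈ M2`.  So `1 ∈ M2`,
`M2 = ⊤ ≅ A`.  `F2_span`: multiplication by `g` is an isomorphism `A ≅ (g)`.
-/

noncomputable section

namespace CMT

variable {B A : Type} [CommRing B] [IsDomain B] [UniqueFactorizationMonoid B]
  [IsNoetherianRing B] [CommRing A] [IsDomain A] [UniqueFactorizationMonoid A] [Algebra B A]
  [Module.Finite B A] [FaithfulSMul B A]

theorem F2 : HasDual B A A := by
  obtain ⟨M0, hfg, h0, hd⟩ := F2_lattice (B := B) (A := A)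
  obtain ⟨M2, ⟨e⟩, hp⟩ := F2_ideal M0 hfg h0
  have hd2 : HasDual B A M2 := hasDual_congr e hd
  have h1 : (1 : A) ∈ M2 := by
    refine F1 M2 hd2 1 fun Q hQ hh => ?_
    have hne : Q ≠ ⊥ := Q.ne_bot_of_height_eq_one hh
    obtain ⟨x, hx, hxp⟩ := hQ.exists_mem_prime_of_ne_bot hne
    have hQx : Q = Ideal.span {x} := Q.eq_span_singleton_of_height_eq_one hh hx hxp
    have h2 := hp x hxp
    rw [← hQx, SetLike.not_le_iff_exists] at h2
    obtain ⟨y, hy, hyQ⟩ := h2
    exact ⟨y, hyQ, by rw [mul_one]; exact hy⟩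
  have htop : M2 = ⊤ := (Ideal.eq_top_iff_one _).2 h1
  subst htop
  exact hasDual_congr Submodule.topEquiv hd2

theorem F2_span (g : A) (hg : g ≠ 0) : HasDual B A (Ideal.span {g}) :=
  hasDual_congr (W' := Ideal.span {g}) (LinearEquiv.toSpanNonzeroSingleton A A g hg) F2

end CMT
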