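import Pool.Agent.H43.CM.F.Dual

/-!
# JOB CM-F05 : adjunction  (F3)

Notation: `θ = algebraMap B R θ0 ≠ 0`, `P = ker π ∋ θ`, `W = Wp ⊓ P`, `l` the functional of `W`,
`Φ(w)(r) = l (r • w)`.
* `F3_div`: if `w ∈ W` and `l (r • w) ∈ θ0 B` for all `r`, then `w = θ w'` with `w' ∈ W`: define
  `φ r` by `θ0 φ r = l (r • w)` (`B` a domain, `θ0 ≠ 0`), `φ` is linear, `φ = Φ(w')`,
  `Φ(θ w') = Φ(w)`, so `w = θ w'`.
* Define `l' : Wp.map π → B'` by `l' (π w1) := ρ (l (θ w1))` for `w1 ∈ Wp` (`θ w1 ∈ W`; since `π` is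
  onto, `Wp.map π = π '' Wp`: `Ideal.mem_map_iff_of_surjective`).  Well defined: if
  `w1 ∈ Wp ⊓ P = W` then `l (θ w1) = θ0 l (w1)` is killed by `ρ`.  It is `B'`-linear.
* existence: `φ' : R' → B'`.  `R → R' → B'` is `B`-semilinear (`ρ`); as `R` is free over `B`, it lifts to
  `φ : R → B` linear with `ρ (φ r) = φ' (π r)` (lift the values on a basis).  `φ = Φ(w)`, `w ∈ W`.  For
  `p ∈ P` and all `r`: `ρ (l (r p w)) = ρ (φ (r p)) = φ' (0) = 0`, so `l (r • (p w)) ∈ θ0 B`; by `F3_div`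
  `p w = θ w'` with `w' ∈ W`.  By `hstar`, `w = θ w1`, `w1 ∈ Wp`.  Then
  `φ' (π r) = ρ (l (r θ w1)) = l' (π (r w1)) = l' (π r • π w1)`.
* uniqueness: if `w1 ∈ Wp` and `ρ (l (θ r w1)) = 0` for all `r`, then by `F3_div` (applied to `θ w1`)
  `θ w1 = θ w'` with `w' ∈ W`, so `w1 = w' ∈ W ⊆ P`, `π w1 = 0`.
-/

noncomputable section

namespace CMT

variable {B B' R R' : Type} [CommRing B] [IsDomain B] [CommRing B'] [IsDomain B'] [CommRing R]
  [IsDomain R] [CommRing R'] [IsDomain R'] [Algebra B R] [Algebra B' R']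

theorem F3_div (W : Ideal R) (l : W →ₗ[B] B)
    (hl : ∀ φ : R →ₗ[B] B, ∃! w : W, ∀ r : R, φ r = l (r • w)) (θ0 : B) (hθ : θ0 ≠ 0) (w : W)
    (h : ∀ r : R, θ0 ∣ l (r • w)) : ∃ w' : W, w = algebraMap B R θ0 • w' := by
  choose φ0 hφ0 using h
  let φ : R →ₗ[B] B :=
    { toFun := φ0
      map_add' := by
        intro r s
        apply mul_left_cancel₀ hθ
        rw [mul_add, ← hφ0, ← hφ0, ← hφ0, add_smul, map_add]
      map_smul' := by
        intro b r
        apply mul_left_cancel₀ hθ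
        rw [← hφ0, smul_assoc, map_smul, hφ0, RingHom.id_apply, smul_eq_mul, smul_eq_mul]
        ring }
  obtain ⟨w', hw', -⟩ := hl φ
  refine ⟨w', hasDual_inj l hl _ _ fun r => ?_⟩
  have h1 : r • (algebraMap B R θ0 • w') = θ0 • (r • w') := by
    rw [algebraMap_smul, smul_comm]
  rw [h1, LinearMap.map_smul l θ0, ← hw' r, hφ0 r, smul_eq_mul]
  rfl

theorem F3 [Module.Finite B R] [Module.Free B R] (ρ : B →+* B') (hρ : Function.Surjective ρ)
    (θ0 : B) (hker : RingHom.ker ρ = Ideal.span {θ0}) (hθ0 : θ0 ≠ 0) (π : R →+* R')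
    (hπ : Function.Surjective π)
    (hcomp : ∀ b, π (algebraMap B R b) = algebraMap B' R' (ρ b))
    (hθ : algebraMap B R θ0 ≠ 0) (W Wp : Ideal R) (hW : W = Wp ⊓ RingHom.ker π)
    (hdual : HasDual B R W)
    (hstar : ∀ w ∈ W, (∀ p ∈ RingHom.ker π, ∃ w' ∈ W, p * w = algebraMap B R θ0 * w') →
      ∃ w1 ∈ Wp, w = algebraMap B R θ0 * w1) :
    HasDual B' R' (Wp.map π) := by
  obtain ⟨l, hl⟩ := hdual
  have hρθ : ρ θ0 = 0 := by
    have : θ0 ∈ RingHom.ker ρ := by
      rw [hker]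
      exact Ideal.mem_span_singleton_self θ0
    exact this
  have hπθ : π (algebraMap B R θ0) = 0 := by rw [hcomp, hρθ, map_zero]
  have hmemW : ∀ w1 ∈ Wp, algebraMap B R θ0 * w1 ∈ W := by
    intro w1 h1
    rw [hW]
    refine ⟨Wp.mul_mem_left _ h1, ?_⟩
    show π (algebraMap B R θ0 * w1) = 0
    rw [map_mul, hπθ, zero_mul]
  -- multiplication by `θ` from `Wp` to `W`
  let θm : Wp →ₗ[R] W :=
    { toFun := fun w1 => ⟨algebraMap B R θ0 * w1.1, hmemW _ w1.2⟩
      map_add' := fun x y => Subtype.ext (by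
        show algebraMap B R θ0 * (x.1 + y.1) = algebraMap B R θ0 * x.1 + algebraMap B R θ0 * y.1
        ring)
      map_smul' := fun r x => Subtype.ext (by
        show algebraMap B R θ0 * (r * x.1) = r * (algebraMap B R θ0 * x.1)
        ring) }
  have hθm : ∀ w1 : Wp, ((θm w1 : W) : R) = algebraMap B R θ0 * w1.1 := fun w1 => rfl
  let lam : Wp → B' := fun w1 => ρ (l (θm w1))
  have hlam0 : ∀ w1 : Wp, π w1.1 = 0 → lam w1 = 0 := by
    intro w1 h1
    have hw : w1.1 ∈ W := by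
      rw [hW]
      exact ⟨w1.2, h1⟩
    have h2 : θm w1 = θ0 • (⟨w1.1, hw⟩ : W) := by
      apply Subtype.ext
      rw [hθm]
      show algebraMap B R θ0 * w1.1 = θ0 • w1.1
      rw [Algebra.smul_def]
    show ρ (l (θm w1)) = 0
    rw [h2, map_smul, smul_eq_mul, map_mul, hρθ, zero_mul]
  have hlam_add : ∀ x y : Wp, lam (x + y) = lam x + lam y := by
    intro x y
    show ρ (l (θm (x + y))) = ρ (l (θm x)) + ρ (l (θm y))
    rw [map_add, map_add, map_add]
  have hlam_sub : ∀ x y : Wp, lam (x - y) = lam x - lam y := by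
    intro x y
    show ρ (l (θm (x - y))) = ρ (l (θm x)) - ρ (l (θm y))
    rw [map_sub, map_sub, map_sub]
  have hwd : ∀ x y : Wp, π x.1 = π y.1 → lam x = lam y := by
    intro x y hxy
    have h1 := hlam0 (x - y) (by
      show π (x.1 - y.1) = 0
      rw [map_sub, hxy, sub_self])
    rw [hlam_sub] at h1
    exact sub_eq_zero.1 h1
  have hsurj : ∀ y : Wp.map π, ∃ x : Wp, π x.1 = y.1 := by
    intro y
    obtain ⟨x, hx, hxy⟩ := (Ideal.mem_map_iff_of_surjective π hπ).1 y.2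
    exact ⟨⟨x, hx⟩, hxy⟩
  choose cs hcs using hsurj
  have hl'spec : ∀ (y : Wp.map π) (x : Wp), π x.1 = y.1 → lam (cs y) = lam x := by
    intro y x hx
    exact hwd _ _ (by rw [hcs, hx])
  let l' : (Wp.map π) →ₗ[B'] B' :=
    { toFun := fun y => lam (cs y)
      map_add' := by
        intro x y
        rw [← hlam_add]
        refine hl'spec _ _ ?_
        show π ((cs x).1 + (cs y).1) = x.1 + y.1
        rw [map_add, hcs, hcs]
      map_smul' := by
        intro b' y
        obtain ⟨b, rfl⟩ := hρ b'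
        have h1 : lam (cs (ρ b • y)) = lam (b • cs y) := by
          refine hl'spec _ _ ?_
          show π (b • (cs y).1) = ρ b • y.1
          rw [Algebra.smul_def, map_mul, hcomp, hcs, Algebra.smul_def]
        rw [h1, RingHom.id_apply]
        show ρ (l (θm (b • cs y))) = ρ b • ρ (l (θm (cs y)))
        have h2 : θm (b • cs y) = b • θm (cs y) := by
          apply Subtype.ext
          rw [hθm]
          show algebraMap B R θ0 * (b • (cs y).1) = b • (algebraMap B R θ0 * (cs y).1)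
          rw [mul_smul_comm]
        rw [h2, map_smul, smul_eq_mul, map_mul, smul_eq_mul] }
  have hl' : ∀ (y : Wp.map π) (x : Wp), π x.1 = y.1 → l' y = ρ (l (θm x)) := hl'spec
  refine ⟨l', fun φ' => ?_⟩
  -- lift `φ'`
  let bs := Module.Free.chooseBasis B R
  have hc : ∀ i, ∃ c : B, ρ c = φ' (π (bs i)) := fun i => hρ _
  choose c hc using hc
  let φ : R →ₗ[B] B := bs.constr B c
  have hφ : ∀ r, ρ (φ r) = φ' (π r) := by
    intro r
    have h1 : r = ∑ i, bs.repr r i • bs i := (bs.sum_repr r).symm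
    have h2 : φ r = ∑ i, bs.repr r i * c i := by
      conv_lhs => rw [h1]
      rw [map_sum]
      refine Finset.sum_congr rfl fun i _ => ?_
      rw [map_smul, smul_eq_mul]
      congr 1
      exact bs.constr_basis B c i
    have h3 : π r = ∑ i, ρ (bs.repr r i) • π (bs i) := by
      conv_lhs => rw [h1]
      rw [map_sum]
      refine Finset.sum_congr rfl fun i _ => ?_
      rw [Algebra.smul_def, map_mul, hcomp, Algebra.smul_def]
    rw [h2, h3, map_sum, map_sum]
    refine Finset.sum_congr rfl fun i _ => ?_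
    rw [map_mul, hc, map_smul, smul_eq_mul]
  obtain ⟨w, hw, -⟩ := hl φ
  have hP : ∀ p ∈ RingHom.ker π, ∃ w' ∈ W, p * w.1 = algebraMap B R θ0 * w' := by
    intro p hp
    have hdiv : ∀ r : R, θ0 ∣ l (r • (p • w)) := by
      intro r
      have h1 : ρ (l (r • (p • w))) = 0 := by
        rw [← mul_smul, ← hw, hφ, map_mul, (show π p = 0 from hp), mul_zero, map_zero]
      have h2 : l (r • (p • w)) ∈ RingHom.ker ρ := h1
      rw [hker, Ideal.mem_span_singleton] at h2
      exact h2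
    obtain ⟨w', hw'⟩ := F3_div W l hl θ0 hθ0 (p • w) hdiv
    exact ⟨w'.1, w'.2, congrArg Subtype.val hw'⟩
  obtain ⟨w1, hw1, hww1⟩ := hstar w.1 w.2 hP
  have hwθ : w = θm ⟨w1, hw1⟩ := Subtype.ext hww1
  refine ⟨⟨π w1, Ideal.mem_map_of_mem π hw1⟩, ?_, ?_⟩
  · intro r'
    obtain ⟨r, rfl⟩ := hπ r'
    rw [← hφ, hw r, hwθ, ← map_smul θm r]
    refine (hl' _ _ ?_).symm
    show π (r * w1) = π r * π w1
    exact map_mul π r w1
  · intro y hy
    -- uniqueness
    obtain ⟨x, hx⟩ : ∃ x : Wp, π x.1 = y.1 := ⟨cs y, hcs y⟩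
    let z : Wp := x - ⟨w1, hw1⟩
    have hz : ∀ r : R, θ0 ∣ l (r • θm z) := by
      intro r
      have h1 : ρ (l (θm (r • x))) = φ' (π r) := by
        rw [hy (π r)]
        refine (hl' _ _ ?_).symm
        show π (r * x.1) = π r * y.1
        rw [map_mul, hx]
      have h2 : ρ (l (θm (r • (⟨w1, hw1⟩ : Wp)))) = φ' (π r) := by
        rw [← hφ, hw r, hwθ, map_smul θm r]
      have h3 : l (r • θm z) ∈ RingHom.ker ρ := by
        show ρ (l (r • θm z)) = 0
        rw [← map_smul θm r, smul_sub, map_sub, map_sub, map_sub, h1, h2, sub_self]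
      rw [hker, Ideal.mem_span_singleton] at h3
      exact h3
    obtain ⟨w', hw'⟩ := F3_div W l hl θ0 hθ0 (θm z) hz
    have h4 : algebraMap B R θ0 * z.1 = algebraMap B R θ0 * w'.1 := congrArg Subtype.val hw'
    have h5 : z.1 = w'.1 := mul_left_cancel₀ hθ h4
    have h6 : z.1 ∈ RingHom.ker π := by
      have h7 : w'.1 ∈ Wp ⊓ RingHom.ker π := hW ▸ w'.2
      rw [h5]
      exact h7.2
    have h8 : π x.1 - π w1 = 0 := by
      rw [← map_sub]
      exact h6
    apply Subtype.ext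
    show y.1 = π w1
    rw [← hx]
    exact sub_eq_zero.1 h8

end CMT
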