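import Pool.Agent.H43.CM.C.N1

/-!
# JOB CM-F06 : the condition of the adjunction for divisors  (F4)

Work in the fraction field `K`: `w1 := w / θ`; `w1 P ⊆ W := (⨅ i, Q i) ⊓ P` (from
`p w = θ w'`, `w1 p = w'`).  Show `w1 ∈ R` by `N1` (`x = w`, `y = θ`): let `Q'` be a height one prime.
* `Q' ≠ P`: there is `p ∈ P`, `p ∉ Q'` (if `P ≤ Q'` then `P = Q'` as both have height one:
  `Ideal.mem_minimalPrimes_of_height_eq` or `Ideal.eq_of_le_of_height_le`);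
  `p w = θ w'`, so `θ ∣ p w`.
* `Q' = P`: take `p ∈ P` from `exists_unif`; `p w = θ w'` with `w' ∈ P`, so `s w' = p r` with
  `s ∉ P`; `s p w = θ s w' = θ p r`, so `s w = θ r` (`p ≠ 0` because `P ≠ ⊥`).
So `w = θ w1` with `w1 ∈ R`.  For each `i`: take `p ∈ P`, `p ∉ Q i`: `θ p w1 = p w = θ w'`, so
`p w1 = w' ∈ Q i`, so `w1 ∈ Q i`.
-/

noncomputable section

namespace CMT

variable {R : Type} [CommRing R] [IsDomain R] [IsIntegrallyClosed R] [IsNoetherianRing R]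

omit [IsDomain R] [IsIntegrallyClosed R] in
theorem not_le_of_height_one (P Q : Ideal R) [P.IsPrime] [Q.IsPrime] (hP : P.height = 1)
    (hQ : Q.height = 1) (h : P ≠ Q) : ∃ p ∈ P, p ∉ Q := by
  by_contra hc
  push Not at hc
  refine h (Ideal.eq_of_le_of_height_le P hc ?_)
  rw [hP, hQ]

omit [IsIntegrallyClosed R] [IsNoetherianRing R] in
theorem F4_unif_ne (P : Ideal R) [P.IsPrime] (hP : P.height = 1) (p : R)
    (h : ∀ x ∈ P, ∃ s, s ∉ P ∧ p ∣ s * x) : p ≠ 0 := by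
  rintro rfl
  have hbot : P = ⊥ := by
    rw [eq_bot_iff]
    intro x hx
    obtain ⟨s, hs, hd⟩ := h x hx
    have h1 : s * x = 0 := zero_dvd_iff.1 hd
    rcases mul_eq_zero.1 h1 with h2 | h2
    · exact absurd (h2 ▸ P.zero_mem) hs
    · exact (Submodule.mem_bot R).2 h2
  subst hbot
  rw [Ideal.height_bot] at hP
  exact absurd hP (by norm_num)

theorem F4 (P : Ideal R) [P.IsPrime] (hP : P.height = 1) {ι : Type} (Q : ι → Ideal R)
    (hQ : ∀ i, (Q i).IsPrime) (hQ1 : ∀ i, (Q i).height = 1) (hne : ∀ i, Q i ≠ P)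
    (θ : R) (hθ0 : θ ≠ 0) (w : R)
    (h : ∀ p ∈ P, ∃ w' ∈ (⨅ i, Q i) ⊓ P, p * w = θ * w') :
    ∃ w1 ∈ ⨅ i, Q i, w = θ * w1 := by
  have hdvd : θ ∣ w := by
    refine N1 w θ hθ0 ?_
    intro Q' hQ' hQ'1
    by_cases hQP : Q' = P
    · subst hQP
      obtain ⟨p, hp, hx⟩ := exists_unif Q' hQ'1
      have hp0 : p ≠ 0 := F4_unif_ne Q' hQ'1 p hx
      obtain ⟨w', hw', he⟩ := h p hp
      obtain ⟨s, hs, r, hr⟩ := hx w' hw'.2
      refine ⟨s, hs, r, ?_⟩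
      refine mul_left_cancel₀ hp0 ?_
      calc p * (s * w) = s * (p * w) := by ring
        _ = θ * (s * w') := by rw [he]; ring
        _ = p * (θ * r) := by rw [hr]; ring
    · obtain ⟨p, hp, hpQ⟩ := not_le_of_height_one P Q' hP hQ'1 (Ne.symm hQP)
      obtain ⟨w', _, he⟩ := h p hp
      exact ⟨p, hpQ, w', he⟩
  obtain ⟨w1, hw1⟩ := hdvd
  refine ⟨w1, ?_, hw1⟩
  rw [Ideal.mem_iInf]
  intro i
  have := hQ i
  obtain ⟨p, hp, hpQ⟩ := not_le_of_height_one P (Q i) hP (hQ1 i) (Ne.symm (hne i))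
  obtain ⟨w', hw', he⟩ := h p hp
  have h1 : p * w1 = w' := by
    refine mul_left_cancel₀ hθ0 ?_
    calc θ * (p * w1) = p * (θ * w1) := by ring
      _ = θ * w' := by rw [← hw1, he]
  have h2 : w' ∈ Q i := (Ideal.mem_iInf.1 hw'.1) i
  rw [← h1] at h2
  exact ((hQ i).mem_or_mem h2).resolve_left hpQ

end CMT
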