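import Pool.Agent.H43.CM.F.F1
import Pool.Agent.H43.CM.F.F3
import Pool.Agent.H43.CM.F.F4

/-!
# JOB CM-F07 : the adjunction step  (F5)

* `F5_eq`: `M := Wp.map π` with `HasDual B' R' M`.  `M ≤ ⨅ J j` is `hM`.  Conversely let
  `x ∈ ⨅ J j`.  Apply `F1`: let `Q'` be a height one prime of `R'`.  If `Q' = J j`: take `β ∈ M` in `J j`
  with `h β ∉ (J j)²` for `h ∉ J j`; by `unif_of_sq` there is `s ∉ J j` with `β ∣ s x`, so
  `s x ∈ M`.  If `Q'` is not one of the `J j`: `β ∈ M`, `β ∉ Q'`; `h = β`.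
* `F5`: combine with `F3` and `F4` (`W = (⨅ Q i) ⊓ P`, `P = ker π`).
-/

noncomputable section

namespace CMT

theorem F5_eq {B' R' : Type} [CommRing B'] [IsDomain B'] [UniqueFactorizationMonoid B']
    [CommRing R'] [IsDomain R'] [IsIntegrallyClosed R'] [IsNoetherianRing R'] [Algebra B' R']
    [Module.Finite B' R'] [FaithfulSMul B' R'] (M : Ideal R') (hd : HasDual B' R' M)
    {κ : Type} (J : κ → Ideal R') (hJ : ∀ j, (J j).IsPrime) (hJ1 : ∀ j, (J j).height = 1)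
    (hM : ∀ j, M ≤ J j)
    (h1 : ∀ j, ∃ β ∈ M, ∀ s, s ∉ J j → s * β ∉ (J j) ^ 2)
    (h2 : ∀ Q' : Ideal R', Q'.IsPrime → Q'.height = 1 → (∀ j, Q' ≠ J j) → ∃ β ∈ M, β ∉ Q') :
    M = ⨅ j, J j := by
  refine le_antisymm (le_iInf hM) fun x hx => ?_
  refine F1 M hd x fun Q' hQ' hQ'1 => ?_
  by_cases hj : ∃ j, Q' = J j
  · obtain ⟨j, rfl⟩ := hj
    obtain ⟨β, hβ, hβ2⟩ := h1 j
    have hxj : x ∈ J j := (Ideal.mem_iInf.1 hx) j
    obtain ⟨s, hs, c, hc⟩ := unif_of_sq (J j) hQ'1 β (hM j hβ) hβ2 x hxj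
    exact ⟨s, hs, by rw [hc]; exact M.mul_mem_right c hβ⟩
  · push Not at hj
    obtain ⟨β, hβ, hβ2⟩ := h2 Q' hQ' hQ'1 hj
    exact ⟨β, hβ2, M.mul_mem_right x hβ⟩

theorem F5 {B B' R R' : Type} [CommRing B] [IsDomain B] [CommRing B'] [IsDomain B']
    [UniqueFactorizationMonoid B'] [CommRing R] [IsDomain R] [IsIntegrallyClosed R]
    [IsNoetherianRing R] [CommRing R'] [IsDomain R'] [IsIntegrallyClosed R']
    [IsNoetherianRing R'] [Algebra B R] [Algebra B' R'] [Module.Finite B R] [Module.Free B R]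
    [Module.Finite B' R'] [FaithfulSMul B' R']
    (ρ : B →+* B') (hρ : Function.Surjective ρ)
    (θ0 : B) (hker : RingHom.ker ρ = Ideal.span {θ0}) (hθ0 : θ0 ≠ 0) (π : R →+* R')
    (hπ : Function.Surjective π)
    (hcomp : ∀ b, π (algebraMap B R b) = algebraMap B' R' (ρ b))
    (hθ : algebraMap B R θ0 ≠ 0) (hP : (RingHom.ker π).height = 1)
    {ι κ : Type} (Q : ι → Ideal R) (hQ : ∀ i, (Q i).IsPrime) (hQ1 : ∀ i, (Q i).height = 1)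
    (hne : ∀ i, Q i ≠ RingHom.ker π)
    (hdual : HasDual B R ((⨅ i, Q i) ⊓ RingHom.ker π : Ideal R))
    (J : κ → Ideal R') (hJ : ∀ j, (J j).IsPrime) (hJ1 : ∀ j, (J j).height = 1)
    (hQJ : ∀ j, ∃ i, (Q i).map π ≤ J j)
    (h1 : ∀ j, ∃ β ∈ ⨅ i, Q i, ∀ s, s ∉ J j → s * π β ∉ (J j) ^ 2)
    (h2 : ∀ Q' : Ideal R', Q'.IsPrime → Q'.height = 1 → (∀ j, Q' ≠ J j) →
      ∃ β ∈ ⨅ i, Q i, π β ∉ Q') :
    HasDual B' R' (⨅ j, J j : Ideal R') := by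
  have hP' : (RingHom.ker π).IsPrime := RingHom.ker_isPrime π
  have hd : HasDual B' R' ((⨅ i, Q i : Ideal R).map π) :=
    F3 ρ hρ θ0 hker hθ0 π hπ hcomp hθ ((⨅ i, Q i) ⊓ RingHom.ker π : Ideal R) (⨅ i, Q i) rfl
      hdual fun w _ h => F4 (RingHom.ker π) hP Q hQ hQ1 hne (algebraMap B R θ0) hθ w h
  have he : (⨅ i, Q i : Ideal R).map π = ⨅ j, J j := by
    refine F5_eq (B' := B') _ hd J hJ hJ1 (fun j => ?_) (fun j => ?_) (fun Q' hQ' hQ'1 hj => ?_)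
    · obtain ⟨i, hi⟩ := hQJ j
      exact (Ideal.map_mono (iInf_le Q i)).trans hi
    · obtain ⟨β, hβ, hβ2⟩ := h1 j
      exact ⟨π β, Ideal.mem_map_of_mem π hβ, hβ2⟩
    · obtain ⟨β, hβ, hβ2⟩ := h2 Q' hQ' hQ'1 hj
      exact ⟨π β, Ideal.mem_map_of_mem π hβ, hβ2⟩
  rw [← he]
  exact hd

end CMT
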