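import Pool.Agent.H43.CM.F.F5
import Pool.Agent.H43.CM.F.F2
import Pool.Agent.H43.CM.G.Defs

/-!
# MP_7fe4b4_ag : PART F, translation between `CanDual` and `HasDual`
-/

open MvPolynomial

noncomputable section

namespace CMT

theorem CanDual.congr {B R : Type} [CommRing B] [CommRing R] {β : B →+* R} {W W' : Type}
    [AddCommGroup W] [Module R W] [AddCommGroup W'] [Module R W'] (e : W ≃ₗ[R] W')
    (h : CanDual β W) : CanDual β W' := by
  unfold CanDual at h ⊢
  letI := β.toAlgebra
  obtain ⟨Φ, hΦ⟩ := h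
  refine ⟨e.symm.toAddEquiv.trans Φ, fun r w x => ?_⟩
  have := hΦ r (e.symm w) x
  rw [← map_smul] at this
  exact this

theorem Glue_of_hasDual {B R W : Type} [CommRing B] [CommRing R] (β : B →+* R) [AddCommGroup W]
    [Module R W] :
    letI := β.toAlgebra
    ∀ [Module B W] [IsScalarTower B R W], HasDual B R W → CanDual β W := by
  letI := β.toAlgebra
  intro _ _ h
  obtain ⟨l, hl⟩ := h
  let F : W →+ (R →ₗ[B] B) :=
    { toFun := fun w =>
        { toFun := fun r => l (r • w)
          map_add' := by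
            intro r s
            rw [add_smul, map_add]
          map_smul' := by
            intro b r
            rw [smul_assoc, map_smul, RingHom.id_apply] }
      map_zero' := by
        ext r
        show l (r • (0 : W)) = 0
        rw [smul_zero, map_zero]
      map_add' := by
        intro w w'
        ext r
        show l (r • (w + w')) = l (r • w) + l (r • w')
        rw [smul_add, map_add] }
  have hF : ∀ w r, F w r = l (r • w) := fun w r => rfl
  have hbij : Function.Bijective F := by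
    constructor
    · intro w w' hww
      obtain ⟨v, hv, hu⟩ := hl (F w)
      rw [hu w (fun r => rfl), hu w' (fun r => by rw [hww]; rfl)]
    · intro φ
      obtain ⟨w, hw, -⟩ := hl φ
      exact ⟨w, LinearMap.ext fun r => (hw r).symm⟩
  refine ⟨AddEquiv.ofBijective F hbij, fun r w x => ?_⟩
  show l (x • r • w) = l ((r * x) • w)
  rw [← mul_smul, mul_comm]

theorem Glue_hasDual {B R W : Type} [CommRing B] [CommRing R] (β : B →+* R) [AddCommGroup W]
    [Module R W] :
    letI := β.toAlgebra
    ∀ [Module B W] [IsScalarTower B R W], CanDual β W → HasDual B R W := by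
  letI := β.toAlgebra
  intro _ _ h
  obtain ⟨Φ, hΦ⟩ := h
  refine ⟨{ toFun := fun w => Φ w 1, map_add' := ?_, map_smul' := ?_ }, fun φ => ?_⟩
  · intro w w'
    rw [map_add]
    rfl
  · intro b w
    rw [← IsScalarTower.algebraMap_smul R b w, hΦ, ← Algebra.smul_def, map_smul,
      RingHom.id_apply]
  · have h1 : ∀ (w : W) (r : R), Φ (r • w) 1 = Φ w r := by
      intro w r
      rw [hΦ, mul_one]
    refine ⟨Φ.symm φ, fun r => ?_, fun w' hw' => ?_⟩
    · show φ r = Φ (r • Φ.symm φ) 1
      rw [h1, AddEquiv.apply_symm_apply]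
    · have : Φ w' = φ := by
        ext r
        rw [hw' r]
        exact (h1 w' r).symm
      rw [← this, AddEquiv.symm_apply_apply]

/-- (F2) -/
theorem base_dual {B A : Type} [CommRing B] [IsDomain B] [IsNoetherianRing B]
    [UniqueFactorizationMonoid B] [CommRing A] [IsDomain A] [IsNoetherianRing A]
    [UniqueFactorizationMonoid A] (β : B →+* A) (hβ : Function.Injective β) (hf : FinFree β) :
    CanDual β A := by
  let _ := β.toAlgebra
  have : Module.Finite B A := hf.1
  have : FaithfulSMul B A := (faithfulSMul_iff_algebraMap_injective B A).2 hβ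
  exact Glue_of_hasDual β F2

/-- a finite intersection of height one primes of a UFD is principal -/
theorem inter_principal {A : Type} [CommRing A] [IsDomain A] [UniqueFactorizationMonoid A]
    {ι : Type} [Finite ι] (P : ι → Ideal A) (hP : ∀ i, (P i).IsPrime)
    (hh : ∀ i, (P i).height = 1) : ∃ g : A, g ≠ 0 ∧ (⨅ i, P i) = Ideal.span {g} := by
  classical
  have := Fintype.ofFinite ι
  have key : ∀ s : Finset ι, ∃ g : A, g ≠ 0 ∧ (⨅ i ∈ s, P i) = Ideal.span {g} := by
    intro s
    induction s using Finset.induction_on with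
    | empty => exact ⟨1, one_ne_zero, by simp⟩
    | insert i s his ih =>
      obtain ⟨g, hg, he⟩ := ih
      have hne : P i ≠ ⊥ := (P i).ne_bot_of_height_eq_one (hh i)
      obtain ⟨p, hp, hpp⟩ := (hP i).exists_mem_prime_of_ne_bot hne
      have := hP i
      have hPi : P i = Ideal.span {p} := (P i).eq_span_singleton_of_height_eq_one (hh i) hp hpp
      rw [Finset.iInf_insert, he, hPi]
      by_cases hd : p ∣ g
      · refine ⟨g, hg, ?_⟩
        rw [inf_eq_right, Ideal.span_singleton_le_span_singleton]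
        exact hd
      · refine ⟨p * g, mul_ne_zero hpp.ne_zero hg, ?_⟩
        ext x
        rw [Ideal.mem_inf, Ideal.mem_span_singleton, Ideal.mem_span_singleton,
          Ideal.mem_span_singleton]
        constructor
        · rintro ⟨h1, y, rfl⟩
          rw [mul_comm p g]
          exact mul_dvd_mul_left g ((hpp.dvd_or_dvd h1).resolve_left hd)
        · intro h
          exact ⟨(dvd_mul_right p g).trans h, (dvd_mul_left g p).trans h⟩
  obtain ⟨g, hg, he⟩ := key Finset.univ
  exact ⟨g, hg, by simpa using he⟩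

/-- the kernel of `π` meets `B` in the kernel of `ρ` -/
theorem Glue_injective {R R' B B' : Type} [CommRing R] [IsDomain R] [IsNoetherianRing R]
    [CommRing R'] [IsDomain R'] [CommRing B] [IsDomain B] [CommRing B'] [IsDomain B']
    (β : B →+* R) (β' : B' →+* R') (π : R →+* R') (ρ : B →+* B')
    (hρ : Function.Surjective ρ) (hcomp : ∀ b, π (β b) = β' (ρ b)) (θ0 : B)
    (hker : RingHom.ker ρ = Ideal.span {θ0}) (hff : FinFree β) (hθ : β θ0 ≠ 0)
    (hP : (RingHom.ker π).height = 1) : Function.Injective β' := by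
  let _ := β.toAlgebra
  have : Module.Finite B R := hff.1
  have : Module.Free B R := hff.2
  have hP' : (RingHom.ker π).IsPrime := RingHom.ker_isPrime π
  have hρ' : (RingHom.ker ρ).IsPrime := RingHom.ker_isPrime ρ
  have hle : RingHom.ker ρ ≤ (RingHom.ker π).under B := by
    intro b hb
    show π (β b) = 0
    rw [hcomp, (RingHom.mem_ker).1 hb, map_zero]
  have heq : RingHom.ker ρ = (RingHom.ker π).under B := by
    by_contra hne
    have hlt : RingHom.ker ρ < (RingHom.ker π).under B := lt_of_le_of_ne hle hne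
    obtain ⟨P1, hP1lt, hP1, hP1o⟩ := Ideal.exists_ideal_lt_liesOver_of_lt (RingHom.ker π) hlt
    have hP1b : P1 ≠ ⊥ := by
      intro h0
      have h1 : θ0 ∈ RingHom.ker ρ := by rw [hker]; exact Ideal.mem_span_singleton_self θ0
      rw [hP1o.over] at h1
      have h2 : β θ0 ∈ P1 := h1
      rw [h0] at h2
      exact hθ ((Submodule.mem_bot R).1 h2)
    have := hP1
    have h3 : P1.height + 1 ≤ (RingHom.ker π).height :=
      Ideal.height_add_one_le_of_lt_of_isPrime hP1lt
    have h4 : (⊥ : Ideal R).height + 1 ≤ P1.height :=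
      Ideal.height_add_one_le_of_lt_of_isPrime (bot_lt_iff_ne_bot.2 hP1b)
    rw [hP] at h3
    have h5 : (1 : ℕ∞) ≤ P1.height := le_trans (by simp) h4
    have h6 : (1 : ℕ∞) + 1 ≤ 1 := le_trans (add_le_add h5 le_rfl) h3
    exact absurd h6 (by decide)
  rw [injective_iff_map_eq_zero]
  intro b' hb'
  obtain ⟨b, rfl⟩ := hρ b'
  have h5 : b ∈ (RingHom.ker π).under B := by
    show π (β b) = 0
    rw [hcomp, hb']
  rw [← heq] at h5
  exact (RingHom.mem_ker).1 h5

/-- (F3)-(F5) -/
theorem adj_step {R R' B B' : Type} [CommRing R] [IsDomain R] [IsNoetherianRing R]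
    [IsIntegrallyClosed R] [CommRing R'] [IsDomain R'] [IsNoetherianRing R']
    [IsIntegrallyClosed R'] [CommRing B] [IsDomain B] [CommRing B'] [IsDomain B']
    [IsNoetherianRing B'] [UniqueFactorizationMonoid B']
    (β : B →+* R) (β' : B' →+* R') (π : R →+* R') (ρ : B →+* B')
    (hπ : Function.Surjective π) (hρ : Function.Surjective ρ)
    (hcomp : ∀ b, π (β b) = β' (ρ b)) (θ0 : B) (hker : RingHom.ker ρ = Ideal.span {θ0})
    (hff : FinFree β) (hfin : β'.Finite) (hθ : β θ0 ≠ 0)
    (hP : (RingHom.ker π).height = 1)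
    {ι : Type} [Finite ι] (Pi : ι → Ideal R) (hPi : ∀ i, (Pi i).IsPrime)
    (hPh : ∀ i, (Pi i).height = 1) (hPne : ∀ i, Pi i ≠ RingHom.ker π)
    (hW : CanDual β ↥(RingHom.ker π ⊓ ⨅ i, Pi i))
    {κ : Type} [Finite κ] (J : κ → Ideal R') (hJ : ∀ j, (J j).IsPrime)
    (hJh : ∀ j, (J j).height = 1)
    (h1 : ∀ j, ∃ i, Pi i ≤ (J j).comap π)
    (h2 : ∀ j, ∃ b, (∀ i, b ∈ Pi i) ∧ π b ∈ J j ∧ ∀ h, h ∉ J j → h * π b ∉ (J j) ^ 2)
    (h3 : ∀ Q : Ideal R', Q.IsPrime → Q.height = 1 → (∀ j, Q ≠ J j) →
      ∃ b, (∀ i, b ∈ Pi i) ∧ π b ∉ Q) :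
    CanDual β' ↥(⨅ j, J j) := by
  have hinj : Function.Injective β' :=
    Glue_injective β β' π ρ hρ hcomp θ0 hker hff hθ hP
  letI := β.toAlgebra
  letI := β'.toAlgebra
  have : Module.Finite B R := hff.1
  have : Module.Free B R := hff.2
  have : Module.Finite B' R' := hfin
  have : FaithfulSMul B' R' := (faithfulSMul_iff_algebraMap_injective B' R').2 hinj
  have hθ0 : θ0 ≠ 0 := by
    rintro rfl
    exact hθ (map_zero β)
  have hd : HasDual B R ((⨅ i, Pi i) ⊓ RingHom.ker π : Ideal R) := by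
    rw [inf_comm]
    exact Glue_hasDual β hW
  refine Glue_of_hasDual β' (F5 ρ hρ θ0 hker hθ0 π hπ hcomp hθ hP Pi hPi hPh hPne hd J hJ hJh
    (fun j => ?_) (fun j => ?_) (fun Q hQ hQh hQj => ?_))
  · obtain ⟨i, hi⟩ := h1 j
    exact ⟨i, Ideal.map_le_iff_le_comap.2 hi⟩
  · obtain ⟨b, hb, -, hb2⟩ := h2 j
    exact ⟨b, Ideal.mem_iInf.2 hb, hb2⟩
  · obtain ⟨b, hb, hb2⟩ := h3 Q hQ hQh hQj
    exact ⟨b, Ideal.mem_iInf.2 hb, hb2⟩

end CMT
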