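import Pool.Agent.H43.CM.G.Iface
import Pool.Agent.H43.CM.F.Glue

/-!
# MP_7fe4b4_ag : PART F, abstract statements used downstream (F/Glue.lean):
`CanDual.congr`, `base_dual`, `inter_principal`, `adj_step`
-/
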